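import Mathlib

/-!
# The number of families of disjoint sets
-/

set_option autoImplicit false

open Polynomial

namespace Pool.Agent.V8H88.RM

section Sets

variable {F : Type} [Fintype F] [DecidableEq F]

/-- The number of the sets with `g` elements which contain a given element. -/
lemma card_through (g : ℕ) (t : F) (P : Finset (Finset F)) (hP : ∀ A ∈ P, A.card = g) :
    (P.filter fun A => t ∈ A).card ≤ Fintype.card F ^ (g - 1) := by
  have h1 : (P.filter fun A => t ∈ A).card ≤
      ((Finset.univ : Finset F).powersetCard (g - 1)).card := by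
    refine Finset.card_le_card_of_injOn (fun A => A.erase t) ?_ ?_
    · intro A hA
      rw [Finset.mem_coe, Finset.mem_filter] at hA
      rw [Finset.mem_coe, Finset.mem_powersetCard]
      refine ⟨Finset.subset_univ _, ?_⟩
      rw [Finset.card_erase_of_mem hA.2, hP A hA.1]
    · intro A hA B hB h
      rw [Finset.mem_coe, Finset.mem_filter] at hA hB
      have h2 : insert t (A.erase t) = insert t (B.erase t) := congrArg (insert t) h
      rwa [Finset.insert_erase hA.2, Finset.insert_erase hB.2] at h2
  refine h1.trans ?_
  rw [Finset.card_powersetCard, Finset.card_univ]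
  exact Nat.choose_le_pow _ _

/-- The number of the sets which meet a given set. -/
lemma card_meet (g : ℕ) (U : Finset F) (P : Finset (Finset F)) (hP : ∀ A ∈ P, A.card = g) :
    (P.filter fun A => ¬ Disjoint A U).card ≤ U.card * Fintype.card F ^ (g - 1) := by
  have h1 : (P.filter fun A => ¬ Disjoint A U) ⊆ U.biUnion fun t => P.filter fun A => t ∈ A := by
    intro A hA
    rw [Finset.mem_filter, Finset.not_disjoint_iff] at hA
    obtain ⟨hA, t, htA, htU⟩ := hA
    rw [Finset.mem_biUnion]
    exact ⟨t, htU, Finset.mem_filter.2 ⟨hA, htA⟩⟩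
  refine (Finset.card_le_card h1).trans (Finset.card_biUnion_le.trans ?_)
  refine (Finset.sum_le_card_nsmul _ _ _ fun t _ => card_through g t P hP).trans ?_
  rw [smul_eq_mul]

variable {X : Type} [Fintype X] [DecidableEq X]

/-- The families of disjoint sets, indexed by `s`. -/
def disj (P : X → Finset (Finset F)) (s : Finset X) : Finset (X → Finset F) :=
  (Fintype.piFinset fun x => if x ∈ s then P x else {∅}).filter
    fun T => ∀ x ∈ s, ∀ y ∈ s, x ≠ y → Disjoint (T x) (T y)

omit [Fintype F] in
lemma mem_disj (P : X → Finset (Finset F)) (s : Finset X) (T : X → Finset F) :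
    T ∈ disj P s ↔ (∀ x ∈ s, T x ∈ P x) ∧ (∀ x ∉ s, T x = ∅) ∧
      ∀ x ∈ s, ∀ y ∈ s, x ≠ y → Disjoint (T x) (T y) := by
  unfold disj
  rw [Finset.mem_filter, Fintype.mem_piFinset]
  constructor
  · rintro ⟨h1, h2⟩
    refine ⟨fun x hx => ?_, fun x hx => ?_, h2⟩
    · have := h1 x
      rwa [if_pos hx] at this
    · have := h1 x
      rwa [if_neg hx, Finset.mem_singleton] at this
  · rintro ⟨h1, h2, h3⟩
    refine ⟨fun x => ?_, h3⟩
    by_cases hx : x ∈ s
    · rw [if_pos hx]
      exact h1 x hx
    · rw [if_neg hx, Finset.mem_singleton]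
      exact h2 x hx

theorem card_disj (P : X → Finset (Finset F)) (g : ℕ) (hP : ∀ x, ∀ A ∈ P x, A.card = g)
    (m : ℝ) (hm : 0 ≤ m)
    (hcard : ∀ x, m + (Fintype.card X * g * Fintype.card F ^ (g - 1) : ℕ) ≤ ((P x).card : ℝ))
    (s : Finset X) : m ^ s.card ≤ ((disj P s).card : ℝ) := by
  induction s using Finset.induction_on with
  | empty =>
    rw [Finset.card_empty, pow_zero]
    have h1 : (fun _ => ∅ : X → Finset F) ∈ disj P ∅ := by
      rw [mem_disj]
      refine ⟨fun x hx => absurd hx (Finset.notMem_empty x), fun x _ => rfl,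
        fun x hx => absurd hx (Finset.notMem_empty x)⟩
    have h2 : 0 < (disj P ∅).card := Finset.card_pos.2 ⟨_, h1⟩
    exact_mod_cast h2
  | insert a s ha ih =>
    have h1 : ((disj P s).sigma fun T =>
        (P a).filter fun A => Disjoint A (s.biUnion T)).card ≤ (disj P (insert a s)).card := by
      refine Finset.card_le_card_of_injOn (fun x => Function.update x.1 a x.2) ?_ ?_
      · rintro ⟨T, A⟩ hTA
        rw [Finset.mem_coe, Finset.mem_sigma, Finset.mem_filter, mem_disj] at hTA
        obtain ⟨⟨h1, h2, h3⟩, hA, hdis⟩ := hTA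
        simp only at h1 h2 h3 hA hdis
        rw [Finset.mem_coe]
        change Function.update T a A ∈ disj P (insert a s)
        rw [mem_disj]
        have hne : ∀ x ∈ s, x ≠ a := fun x hx h => ha (h ▸ hx)
        have hdis' : ∀ x ∈ s, Disjoint A (T x) := fun x hx =>
          hdis.mono_right (Finset.subset_biUnion_of_mem T hx)
        refine ⟨fun x hx => ?_, fun x hx => ?_, fun x hx y hy hxy => ?_⟩
        · rcases Finset.mem_insert.1 hx with rfl | hx
          · rw [Function.update_self]
            exact hA
          · rw [Function.update_of_ne (hne x hx)]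
            exact h1 x hx
        · rw [Finset.mem_insert, not_or] at hx
          rw [Function.update_of_ne hx.1]
          exact h2 x hx.2
        · rcases Finset.mem_insert.1 hx with hx' | hx'
          · rcases Finset.mem_insert.1 hy with hy' | hy'
            · exact absurd (hx'.trans hy'.symm) hxy
            · rw [hx', Function.update_self, Function.update_of_ne (hne y hy')]
              exact hdis' y hy'
          · rcases Finset.mem_insert.1 hy with hy' | hy'
            · rw [hy', Function.update_self, Function.update_of_ne (hne x hx')]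
              exact (hdis' x hx').symm
            · rw [Function.update_of_ne (hne x hx'), Function.update_of_ne (hne y hy')]
              exact h3 x hx' y hy' hxy
      · rintro ⟨T, A⟩ hTA ⟨T', A'⟩ hTA' h
        rw [Finset.mem_coe, Finset.mem_sigma, mem_disj] at hTA hTA'
        simp only at h hTA hTA'
        have hA : A = A' := by
          have := congrFun h a
          rwa [Function.update_self, Function.update_self] at this
        have hT : T = T' := by
          funext x
          by_cases hx : x = a
          · subst hx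
            rw [hTA.1.2.1 x ha, hTA'.1.2.1 x ha]
          · have := congrFun h x
            rwa [Function.update_of_ne hx, Function.update_of_ne hx] at this
        subst hA hT
        rfl
    rw [Finset.card_sigma] at h1
    rw [Finset.card_insert_of_notMem ha, pow_succ]
    have h2 : ∀ T ∈ disj P s, m ≤ (((P a).filter fun A => Disjoint A (s.biUnion T)).card : ℝ) := by
      intro T hT
      rw [mem_disj] at hT
      have h3 := Finset.card_filter_add_card_filter_not (s := P a)
        (fun A => Disjoint A (s.biUnion T))
      have h4 := card_meet g (s.biUnion T) (P a) (hP a)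
      have h5 : (s.biUnion T).card ≤ Fintype.card X * g := by
        refine Finset.card_biUnion_le.trans ?_
        refine (Finset.sum_le_card_nsmul s _ g fun x hx => (hP x _ (hT.1 x hx)).le).trans ?_
        rw [smul_eq_mul]
        exact Nat.mul_le_mul_right g (Finset.card_le_univ s)
      have h6 : ((P a).filter fun A => ¬ Disjoint A (s.biUnion T)).card ≤
          Fintype.card X * g * Fintype.card F ^ (g - 1) :=
        h4.trans (Nat.mul_le_mul_right _ h5)
      have h7 := hcard a
      rw [← h3] at h7
      have h8 : ((((P a).filter fun A => ¬ Disjoint A (s.biUnion T)).card : ℕ) : ℝ) ≤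
          ((Fintype.card X * g * Fintype.card F ^ (g - 1) : ℕ) : ℝ) := by exact_mod_cast h6
      push_cast at h7 h8
      linarith
    calc m ^ s.card * m ≤ ((disj P s).card : ℝ) * m := mul_le_mul_of_nonneg_right ih hm
      _ = ∑ _T ∈ disj P s, m := by rw [Finset.sum_const, nsmul_eq_mul]
      _ ≤ ∑ T ∈ disj P s, (((P a).filter fun A => Disjoint A (s.biUnion T)).card : ℝ) :=
          Finset.sum_le_sum h2
      _ = ((∑ T ∈ disj P s, ((P a).filter fun A => Disjoint A (s.biUnion T)).card : ℕ) : ℝ) := by
          push_cast
          rfl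
      _ ≤ ((disj P (insert a s)).card : ℝ) := by exact_mod_cast h1

end Sets

/-- The families of polynomials which are products of different linear factors, without common
factors. -/
def disjPol {l : ℕ} {X : Type} (g : ℕ) (E : X → Set (ZMod l)[X]) : Set (X → (ZMod l)[X]) :=
  {u | (∀ x, u x ∈ E x) ∧ ∃ T : X → Finset (ZMod l), (∀ x, (T x).card = g ∧
    u x = ∏ t ∈ T x, (Polynomial.X - C t)) ∧ ∀ x y, x ≠ y → Disjoint (T x) (T y)}

theorem card_disjPol {l : ℕ} (hl : l.Prime) {X : Type} [Fintype X] (g : ℕ) (hg : 0 < g)
    (E : X → Set (ZMod l)[X]) (hE : ∀ x, ∀ f ∈ E x, ∃ T : Finset (ZMod l), T.card = g ∧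
      f = ∏ t ∈ T, (Polynomial.X - C t)) (c : ℝ) (hc : 0 < c)
    (hcard : ∀ x, c * (l : ℝ) ^ g ≤ ((E x).ncard : ℝ))
    (hll : 2 * (Fintype.card X * g : ℕ) ≤ c * l) :
    (c / 2 * (l : ℝ) ^ g) ^ Fintype.card X ≤ ((disjPol g E).ncard : ℝ) := by
  classical
  have : Fact l.Prime := ⟨hl⟩
  have : NeZero l := ⟨hl.ne_zero⟩
  have hlp : (0 : ℝ) < l := by exact_mod_cast hl.pos
  set pr : Finset (ZMod l) → (ZMod l)[X] := fun T => ∏ t ∈ T, (Polynomial.X - C t) with hpr
  have hinj : Function.Injective pr := by
    intro T T' h
    have h1 := congrArg Polynomial.roots h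
    simp only [hpr] at h1
    rw [roots_prod_X_sub_C, roots_prod_X_sub_C] at h1
    exact Finset.val_injective h1
  set P : X → Finset (Finset (ZMod l)) := fun x =>
    Finset.univ.filter fun T => T.card = g ∧ pr T ∈ E x with hP
  have hPcard : ∀ x, (E x).ncard ≤ (P x).card := by
    intro x
    have h1 : E x ⊆ ((P x).image pr : Finset _) := by
      intro f hf
      obtain ⟨T, hT, rfl⟩ := hE x f hf
      rw [Finset.coe_image]
      exact ⟨T, by rw [Finset.mem_coe, hP, Finset.mem_filter]; exact ⟨Finset.mem_univ _, hT, hf⟩,
        rfl⟩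
    refine (Set.ncard_le_ncard h1 (Finset.finite_toSet _)).trans ?_
    rw [Set.ncard_coe_finset]
    exact Finset.card_image_le
  have h1 := card_disj P g (fun x A hA => (Finset.mem_filter.1 hA).2.1) (c / 2 * (l : ℝ) ^ g)
    (by positivity) (by
      intro x
      have h2 : ((E x).ncard : ℝ) ≤ ((P x).card : ℝ) := by exact_mod_cast hPcard x
      refine le_trans ?_ ((hcard x).trans h2)
      rw [ZMod.card]
      obtain ⟨g', rfl⟩ : ∃ g', g = g' + 1 := ⟨g - 1, by omega⟩
      rw [Nat.add_sub_cancel]
      push_cast at hll ⊢
      have h3 : (Fintype.card X : ℝ) * (g' + 1) * (l : ℝ) ^ g' ≤ c / 2 * l * (l : ℝ) ^ g' := by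
        refine mul_le_mul_of_nonneg_right ?_ (by positivity)
        linarith
      rw [pow_succ]
      linarith) Finset.univ
  rw [Finset.card_univ] at h1
  refine h1.trans ?_
  have h2 : (disj P Finset.univ).card ≤ (disjPol g E).ncard := by
    have h3 : ((disj P Finset.univ).image fun T x => pr (T x)).card =
        (disj P Finset.univ).card := by
      apply Finset.card_image_of_injective
      intro T T' h
      funext x
      exact hinj (congrFun h x)
    rw [← h3, ← Set.ncard_coe_finset]
    refine Set.ncard_le_ncard ?_ ?_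
    · intro u hu
      rw [Finset.mem_coe, Finset.mem_image] at hu
      obtain ⟨T, hT, rfl⟩ := hu
      rw [mem_disj] at hT
      have h4 : ∀ x, (T x).card = g ∧ pr (T x) ∈ E x := fun x =>
        (Finset.mem_filter.1 (hT.1 x (Finset.mem_univ x))).2
      exact ⟨fun x => (h4 x).2, T, fun x => ⟨(h4 x).1, rfl⟩,
        fun x y hxy => hT.2.2 x (Finset.mem_univ x) y (Finset.mem_univ y) hxy⟩
    · refine (Set.finite_range fun (T : X → Finset (ZMod l)) x => pr (T x)).subset ?_
      rintro u ⟨-, T, hT, -⟩
      exact ⟨T, funext fun x => ((hT x).2).symm⟩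
  exact_mod_cast h2

end Pool.Agent.V8H88.RM
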