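import Pool.Agent.V8H88.RM.Defs
import Pool.Agent.W458.MF.ODefs

/-!
# The cosets of the commutator subgroup
-/

set_option autoImplicit false

namespace Pool.Agent.V8H88.RM

open Pool.Agent.W458.MF

lemma closure_eq (g l : ℕ) :
    Subgroup.closure {P | ∃ Q ∈ isoms g l, ∃ R ∈ isoms g l, Q * R * Q⁻¹ * R⁻¹ = P} =
      Omega g l := by
  unfold Omega
  rw [Subgroup.commutator_def]
  congr 1

theorem scaled_eq (g l r : ℕ) (κ : (ZMod l)ˣ) :
    scaled g l r κ = {A | ∃ B ∈ cosetOf g l κ, A = (r : ZMod l) • B} := by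
  unfold scaled cosetOf
  rw [closure_eq]
  ext A
  constructor
  · rintro ⟨ω, hω, rfl⟩
    exact ⟨_, ⟨ω, hω, rfl⟩, rfl⟩
  · rintro ⟨_, ⟨ω, hω, rfl⟩, rfl⟩
    exact ⟨ω, hω, rfl⟩

end Pool.Agent.V8H88.RM
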