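import Pool.Agent.V8H88.RM.Share
import Pool.Agent.V8H88.RM.Cnt
import Pool.Agent.V8H88.RM.Sc
import Pool.Agent.W458.MF.Gen5
import Pool.Agent.W806.MF.DENS

/-!
# The numbers of polynomials with the patterns
-/

set_option autoImplicit false
set_option linter.unusedSectionVars false

open Polynomial

namespace Pool.Agent.V8H88.RM

open Pool.Agent.W521.Frob Pool.Agent.W458.MF

/-- There are many polynomials with the patterns. -/
structure Dat (o : Prop) (g N l q : ℕ) (G : Set (Mat g l)) (c : ℝ) : Prop where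
  nonempty : G.Nonempty
  flip : ¬ o → c * (l : ℝ) ^ g ≤ ((flipSet g N l q ∩ Good g l q G).ncard : ℝ)
  flip2 : o → c * (l : ℝ) ^ g ≤ ((flip2Set g N l q ∩ Good g l q G).ncard : ℝ)
  split : c * (l : ℝ) ^ g ≤ ((splitSet g l q ∩ Good g l q G).ncard : ℝ)
  irr : c * (l : ℝ) ^ g ≤ ((irrSet g l ∩ Good g l q G).ncard : ℝ)
  fix : o → c * (l : ℝ) ^ g ≤ ((fixSet g l ∩ Good g l q G).ncard : ℝ)

lemma good_finite (g l q : ℕ) (hl : l.Prime) (G : Set (Mat g l)) : (Good g l q G).Finite := by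
  have : Fact l.Prime := ⟨hl⟩
  exact Pool.Agent.W32.MF.finite_deg g _ fun u hu => hu.2.1

lemma Dat.mono {o : Prop} {g N l q : ℕ} {G : Set (Mat g l)} {c c' : ℝ} (h : Dat o g N l q G c)
    (hc : c' ≤ c) : Dat o g N l q G c' := by
  have hlp : (0 : ℝ) ≤ (l : ℝ) ^ g := by positivity
  have h1 : c' * (l : ℝ) ^ g ≤ c * (l : ℝ) ^ g := mul_le_mul_of_nonneg_right hc hlp
  exact ⟨h.nonempty, fun ho => h1.trans (h.flip ho), fun ho => h1.trans (h.flip2 ho),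
    h1.trans h.split, h1.trans h.irr, fun ho => h1.trans (h.fix ho)⟩

theorem good_symplectic {g l q : ℕ} (hg : 0 < g) (hl : l.Prime) (hq : ¬ l ∣ q) (f : (ZMod l)[X])
    (hm : f.Monic) (hd : f.natDegree = g) (hsq : Squarefree f) :
    f ∈ Good g l q (similitudes g l q) := by
  obtain ⟨-, -, -, hWM4, hWM5⟩ := W101.MF.wm l hl (q : ZMod l)
  obtain ⟨h, ha, hb, hc⟩ := hWM5 f hm
  refine ⟨hm, hd, ?_⟩
  have h1 := W337.MF.orb g l q hg hl hq h ha (hb.trans hd) (by rw [hc]; exact hsq)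
  rw [hWM4 q h ha, hc] at h1
  exact h1

theorem dat_symplectic (g N : ℕ) (hg : 0 < g) (hN : 0 < N) : ∃ c : ℝ, 0 < c ∧ ∃ l₁ : ℕ,
    ∀ l : ℕ, l.Prime → l₁ ≤ l → ∀ q : ℕ, ¬ l ∣ q →
      Dat False g N l q (similitudes g l q) c := by
  obtain ⟨c, hc, l₁, h⟩ := W205.MF.cnt g N hg hN
  refine ⟨c, hc, l₁, fun l hl hll q hq => ?_⟩
  have : Fact l.Prime := ⟨hl⟩
  obtain ⟨h1, h2, h3⟩ := h l hl hll q hq
  have e1 : flipSet g N l q ∩ Good g l q (similitudes g l q) = flipSet g N l q := by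
    refine Set.inter_eq_left.2 ?_
    rintro f ⟨T, t₀, hT, _, rfl, _⟩
    obtain ⟨a1, a2, a3⟩ := W806.MF.prod_good T hT
    exact good_symplectic hg hl hq _ a1 a2 a3
  have e2 : splitSet g l q ∩ Good g l q (similitudes g l q) = splitSet g l q := by
    refine Set.inter_eq_left.2 ?_
    rintro f ⟨T, hT, rfl, _⟩
    obtain ⟨a1, a2, a3⟩ := W806.MF.prod_good T hT
    exact good_symplectic hg hl hq _ a1 a2 a3
  have e3 : irrSet g l ∩ Good g l q (similitudes g l q) = irrSet g l := by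
    refine Set.inter_eq_left.2 ?_
    rintro f ⟨hm, hdeg, hirr⟩
    exact good_symplectic hg hl hq _ hm hdeg hirr.squarefree
  refine ⟨W806.MF.sim_nonempty g l q, fun _ => ?_, fun h => h.elim, ?_, ?_, fun h => h.elim⟩
  · rw [e1]
    exact h1
  · rw [e2]
    exact h2
  · rw [e3]
    exact h3

theorem good_orthogonal {g l r : ℕ} {κ : (ZMod l)ˣ} (hg : 0 < g) (hl : l.Prime) (hl2 : l ≠ 2)
    (hr : ¬ l ∣ r) (f : (ZMod l)[X])
    (hf : f.Monic ∧ f.natDegree = g ∧ Squarefree (weilm ((r : ZMod l) ^ 2) f) ∧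
      ∃ B ∈ cosetOf g l κ, ((r : ZMod l) • B).charpoly = weilm ((r : ZMod l) ^ 2) f) :
    f ∈ Good g l (r ^ 2) (scaled g l r κ) := by
  have : Fact l.Prime := ⟨hl⟩
  have hr0 : (r : ZMod l) ≠ 0 := W397.MF.natCast_ne hl hr
  obtain ⟨hm, hd, hsq, hB⟩ := hf
  refine ⟨hm, hd, ?_⟩
  have h1 := W475.MF.oorb g l r κ f hg hl hl2 hr hm hd hsq hB
  have hinj : Function.Injective fun B : Mat g l => (r : ZMod l) • B :=
    smul_right_injective _ hr0
  have e1 : scaled g l r κ = (fun B : Mat g l => (r : ZMod l) • B) '' cosetOf g l κ := by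
    rw [scaled_eq]
    ext A
    constructor
    · rintro ⟨B, hB, rfl⟩
      exact ⟨B, hB, rfl⟩
    · rintro ⟨B, hB, rfl⟩
      exact ⟨B, hB, rfl⟩
  have e2 : {A | A ∈ scaled g l r κ ∧ A.charpoly = weilm ((r ^ 2 : ℕ) : ZMod l) f} =
      (fun B : Mat g l => (r : ZMod l) • B) '' {B | B ∈ cosetOf g l κ ∧
        ((r : ZMod l) • B).charpoly = weilm ((r : ZMod l) ^ 2) f} := by
    rw [scaled_eq]
    ext A
    constructor
    · rintro ⟨⟨B, hB, rfl⟩, h2⟩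
      refine ⟨B, ⟨hB, ?_⟩, rfl⟩
      rw [h2, Nat.cast_pow]
    · rintro ⟨B, ⟨hB, h2⟩, rfl⟩
      refine ⟨⟨B, hB, rfl⟩, ?_⟩
      rw [Nat.cast_pow]
      exact h2
  rw [e2, e1, Set.ncard_image_of_injective _ hinj, Set.ncard_image_of_injective _ hinj]
  exact h1

theorem dat_orthogonal (g N : ℕ) (hg : 3 ≤ g) (hN : 0 < N) : ∃ c : ℝ, 0 < c ∧ ∃ l₁ : ℕ,
    ∀ l : ℕ, l.Prime → l₁ ≤ l → ∀ r : ℕ, ¬ l ∣ r → ∀ κ : (ZMod l)ˣ,
      Dat True g N l (r ^ 2) (scaled g l r κ) c := by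
  obtain ⟨c₁, hc₁, l₁, H1⟩ := W930.MFO.ocnts W101.MF.wm g hg
  obtain ⟨c₂, hc₂, l₂, H2⟩ := W460.MF.ocnte g N hg hN
  obtain ⟨c₃, hc₃, l₃, H3⟩ := W959.MF.ocnti W101.MF.wm g (by omega)
  obtain ⟨c₄, hc₄, l₄, H4⟩ := W32.MF.ocntf W101.MF.wm (W959.MF.ocnti W101.MF.wm) g hg
  have h3 : St_REAL1 := W475.MF.real1 W85.MF.omeg
  have h4 : St_REAL2 := W928.MF.real2 W85.MF.omeg
  refine ⟨min (min c₁ c₂) (min c₃ c₄), lt_min (lt_min hc₁ hc₂) (lt_min hc₃ hc₄),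
    l₁ + l₂ + l₃ + l₄ + 5, ?_⟩
  intro l hl hll r hr κ
  have hll5 : 5 ≤ l := by omega
  have hl2 : l ≠ 2 := by omega
  have hg0 : 0 < g := by omega
  have m1 : min (min c₁ c₂) (min c₃ c₄) ≤ c₁ := (min_le_left _ _).trans (min_le_left _ _)
  have m2 : min (min c₁ c₂) (min c₃ c₄) ≤ c₂ := (min_le_left _ _).trans (min_le_right _ _)
  have m3 : min (min c₁ c₂) (min c₃ c₄) ≤ c₃ := (min_le_right _ _).trans (min_le_left _ _)
  have m4 : min (min c₁ c₂) (min c₃ c₄) ≤ c₄ := (min_le_right _ _).trans (min_le_right _ _)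
  have hlg : (0 : ℝ) ≤ (l : ℝ) ^ g := by positivity
  have hfin := good_finite g l (r ^ 2) hl (scaled g l r κ)
  have hne : (scaled g l r κ).Nonempty := by
    rw [scaled_eq]
    obtain ⟨B, hB⟩ := W397.MF.coset_nonempty g l κ
    exact ⟨_, B, hB, rfl⟩
  have key : ∀ (c : ℝ) (S S' : Set (ZMod l)[X]), min (min c₁ c₂) (min c₃ c₄) ≤ c →
      S ⊆ S' ∩ Good g l (r ^ 2) (scaled g l r κ) → c * (l : ℝ) ^ g ≤ (S.ncard : ℝ) →
      min (min c₁ c₂) (min c₃ c₄) * (l : ℝ) ^ g ≤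
        ((S' ∩ Good g l (r ^ 2) (scaled g l r κ)).ncard : ℝ) := by
    intro c S S' hc hS hcard
    refine (mul_le_mul_of_nonneg_right hc hlg).trans (hcard.trans ?_)
    exact_mod_cast Set.ncard_le_ncard hS (hfin.inter_of_right _)
  refine ⟨hne, fun h => absurd trivial h, fun _ => ?_, ?_, ?_, fun _ => ?_⟩
  · refine key c₂ _ _ m2 ?_ (H2 l hl (by omega) r hr κ)
    intro f hf
    obtain ⟨h5, h6⟩ := W397.MF.oflip_good W101.MF.wm h4 hg hl hll5 hr f hf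
    exact ⟨h5, good_orthogonal hg0 hl hl2 hr f h6⟩
  · refine key c₁ _ _ m1 ?_ (H1 l hl (by omega) r hr κ)
    intro f hf
    exact ⟨hf.1, good_orthogonal hg0 hl hl2 hr f
      (W397.MF.halved_good h3 (by omega) hl hll5 hr f hf.2)⟩
  · refine key c₃ _ _ m3 ?_ (H3 l hl (by omega) r hr κ)
    intro f hf
    exact ⟨hf.1, good_orthogonal hg0 hl hl2 hr f
      (W397.MF.halved_good h3 (by omega) hl hll5 hr f hf.2)⟩
  · refine key c₄ _ _ m4 ?_ (H4 l hl (by omega) r hr κ)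
    intro f hf
    exact ⟨hf.1, good_orthogonal hg0 hl hl2 hr f
      (W397.MF.halved_good h3 (by omega) hl hll5 hr f hf.2)⟩

end Pool.Agent.V8H88.RM
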