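import Pool.Agent.W458.MF.Defs
import Pool.Agent.W458.MF.ExDefs

/-!
# Families of varieties with multiplication by a number field and symplectic or orthogonal
monodromy over this field: definitions
-/

open CategoryTheory AlgebraicGeometry Polynomial NumberField

universe u v

namespace Pool.Agent.V8H88.RM

open Pool.Agent.H914 Pool.Agent.W534 Pool.Agent.W521.Frob Pool.Agent.W458.MF VarClass Obj
  WeilCohomology

/-- The square matrices of size `2 g` over the field with `l` elements. -/
abbrev Mat (g l : ℕ) : Type := Matrix (Fin g ⊕ Fin g) (Fin g ⊕ Fin g) (ZMod l)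

/-- The proportion, among the families of matrices `A x` in the sets `G x`, of those for which the
characteristic polynomials of the matrices `A x` are `t ^ g * h x (t + q / t)` (modulo `l`) for
monic polynomials `h x` of degree `g`, such that the family of the reductions of the `h x` modulo
`l` is in `E`. -/
noncomputable def share (g l q : ℕ) {T : Type} (G : T → Set (Mat g l))
    (E : Set (T → (ZMod l)[X])) : ℝ :=
  ({A : T → Mat g l | (∀ x, A x ∈ G x) ∧ ∃ h : T → ℤ[X], (∀ x, (h x).Monic ∧
      (h x).natDegree = g ∧ (A x).charpoly = (weil q (h x)).map (Int.castRingHom (ZMod l))) ∧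
      (fun x => (h x).map (Int.castRingHom (ZMod l))) ∈ E}.ncard : ℝ) /
    ({A : T → Mat g l | ∀ x, A x ∈ G x}.ncard : ℝ)

/-- The isometries of the split quadratic space of dimension `2 g` over the field with `l`
elements. -/
def isoms (g l : ℕ) : Set (Mat g l)ˣ :=
  {P | P.val * Matrix.fromBlocks 0 1 1 0 * P.val.transpose = Matrix.fromBlocks 0 1 1 0}

/-- The products with `r` of the isometries in the coset, of the commutator subgroup of the group
of isometries, which contains the diagonal matrix with the entries `κ, 1, …, 1, κ⁻¹, 1, …, 1`. -/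
def scaled (g l r : ℕ) (κ : (ZMod l)ˣ) : Set (Mat g l) :=
  {A | ∃ ω ∈ Subgroup.closure {P | ∃ Q ∈ isoms g l, ∃ R ∈ isoms g l, Q * R * Q⁻¹ * R⁻¹ = P},
    A = (r : ZMod l) • (Matrix.diagonal (Sum.elim (fun i => if i.val = 0 then (κ : ZMod l) else 1)
      (fun i => if i.val = 0 then ((κ⁻¹ : (ZMod l)ˣ) : ZMod l) else 1)) * ω.val)}

/-- The reduction of `D` modulo `l` is a product of different linear factors. -/
def SplitMod (D : ℤ[X]) (l : ℕ) : Prop :=
  ∃ T : Finset (ZMod l), D.map (Int.castRingHom (ZMod l)) = ∏ t ∈ T, (X - C t)

variable {k : Type u} [Field k] {𝒱 : VarClass k} {ops : CycleOps 𝒱}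

/-- A family of varieties, with a polynomial over the ring of integers of `K` for each member. -/
structure RFamily (W : WeilCohomology.{u, v} ops) (Y : 𝒱.Obj) (K : Type) [Field K]
    [NumberField K] extends Family W Y where
  rpol : ∀ m, S m → (𝓞 K)[X]

/-- The proportion of the parameters in `S m` for which the reductions of the polynomial over the
ring of integers of `K` by the homomorphisms to the field with `l` elements and to the field with
`l'` elements are in `E` and `E'`. -/
noncomputable def RFamily.rfrequency {W : WeilCohomology.{u, v} ops} {Y : 𝒱.Obj} {K : Type}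
    [Field K] [NumberField K] (F : RFamily W Y K) (m l l' : ℕ)
    (E : Set ((𝓞 K →+* ZMod l) → (ZMod l)[X])) (E' : Set ((𝓞 K →+* ZMod l') → (ZMod l')[X])) :
    ℝ :=
  ({s : F.S m | (fun χ : 𝓞 K →+* ZMod l => (F.rpol m s).map χ) ∈ E ∧
      (fun χ : 𝓞 K →+* ZMod l' => (F.rpol m s).map χ) ∈ E'}.ncard : ℝ) /
    (Nat.card (F.S m) : ℝ)

/-- The family of varieties of dimension `d` over `Y` has multiplication by the number field `K`
and full symplectic or orthogonal monodromy of rank `2 g` over `K`, modulo all large primes which
split completely in `K` (so that there are `[K : ℚ]` homomorphisms from the ring of integers of `K`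
to the field with `l` elements) and modulo which the polynomial `D` splits:

* the members are as in `Piece.IsOver`, the polynomial `rpol` is monic of degree `g`, and the
  product of its complex conjugates is the polynomial `pol` (so `x ^ g * rpol (x + q / x)` is the
  characteristic polynomial of Frobenius on the subspace `sub` as a vector space over `K`, where
  `q = p ^ (d m)`);
* the sets of matrices `G m l χ` are either the sets of all symplectic similitudes with multiplier
  `p ^ (d m)`, or `g ≥ 3`, `d = 2 n` and they are cosets, multiplied with `p ^ (n m)`, of the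
  commutator subgroup of the group of isometries of the split quadratic space;
* the matrices of the Frobenius endomorphisms of the members over the field with `p ^ m` elements,
  modulo `l` and modulo `l'` (they are families of matrices, one for each homomorphism from the
  ring of integers of `K` to the field with `l` elements), are asymptotically, as `m` tends to
  infinity, independent and equidistributed in the products of these sets, as far as their
  characteristic polynomials are concerned. -/
structure RFamily.HasMonodromy {W : WeilCohomology.{u, v} ops} {Y : 𝒱.Obj} {K : Type}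
    [Field K] [NumberField K] (F : RFamily W Y K) {p : ℕ} (Φ : FrobSystem W p)
    (d g l₀ : ℕ) (D : ℤ[X]) (G : ∀ m l : ℕ, (𝓞 K →+* ZMod l) → Set (Mat g l)) : Prop where
  isOver : ∀ m, 0 < m → ∀ s : F.S m, (F.member m s).IsOver Φ m
  dim : ∀ m (s : F.S m), (F.member m s).obj.dim = d
  monic : ∀ m (s : F.S m), (F.rpol m s).Monic
  degree : ∀ m (s : F.S m), (F.rpol m s).natDegree = g
  norm : ∀ m (s : F.S m), (F.member m s).pol.map (Int.castRingHom ℂ) =
    ∏ φ : K →+* ℂ, (F.rpol m s).map (φ.comp (algebraMap (𝓞 K) K))
  group : (∀ m l χ, G m l χ = similitudes g l ((p ^ (d * m) : ℕ) : ZMod l)) ∨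
    (3 ≤ g ∧ ∃ n, d = 2 * n ∧ ∀ m l χ, ∃ κ, G m l χ = scaled g l (p ^ (n * m)) κ)
  monic' : D.Monic
  separable : (D.map (Int.castRingHom ℚ)).Separable
  equidistributed : ∀ l l' : ℕ, l.Prime → l'.Prime → l₀ ≤ l → l₀ ≤ l' → l ≠ l' →
    Nat.card (𝓞 K →+* ZMod l) = Module.finrank ℚ K →
    Nat.card (𝓞 K →+* ZMod l') = Module.finrank ℚ K → SplitMod D l → SplitMod D l' →
    ∀ ε : ℝ, 0 < ε → ∃ m₀ : ℕ, ∀ m ≥ m₀, Nonempty (F.S m) →
      ∀ (E : Set ((𝓞 K →+* ZMod l) → (ZMod l)[X])) (E' : Set ((𝓞 K →+* ZMod l') → (ZMod l')[X])),
        |F.rfrequency m l l' E E' - share g l (p ^ (d * m)) (G m l) E *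
          share g l' (p ^ (d * m)) (G m l') E'| ≤ ε

/-- The family has full symplectic or orthogonal monodromy over `K`. -/
def RFamily.HasFullMonodromy {W : WeilCohomology.{u, v} ops} {Y : 𝒱.Obj} {K : Type}
    [Field K] [NumberField K] (F : RFamily W Y K) {p : ℕ} (Φ : FrobSystem W p) : Prop :=
  ∃ (d g l₀ : ℕ) (D : ℤ[X]) (G : ∀ m l : ℕ, (𝓞 K →+* ZMod l) → Set (Mat g l)),
    F.HasMonodromy Φ d g l₀ D G

end Pool.Agent.V8H88.RM
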