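import Pool.Agent.V8H88.RM.Dat

/-!
# The proportions of the patterns
-/

set_option autoImplicit false
set_option linter.unusedSectionVars false

open Polynomial

namespace Pool.Agent.V8H88.RM

open Pool.Agent.W521.Frob Pool.Agent.W458.MF

section Tuple

variable {T : Type} [Fintype T] [DecidableEq T] {o : Prop} {g N l q : ℕ}
  {G : T → Set (Mat g l)} {c : ℝ}

lemma prod_disj {S : T → Finset (ZMod l)} {u : T → (ZMod l)[X]}
    (hS : ∀ x, (S x).card = g ∧ u x = ∏ t ∈ S x, (X - C t))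
    (hd : ∀ x y, x ≠ y → Disjoint (S x) (S y)) :
    ∏ x, u x = ∏ t ∈ Finset.univ.biUnion S, (X - C t) ∧
      (Finset.univ.biUnion S).card = Fintype.card T * g := by
  have h1 : Set.PairwiseDisjoint ((Finset.univ : Finset T) : Set T) S :=
    fun x _ y _ hxy => hd x y hxy
  refine ⟨?_, ?_⟩
  · rw [Finset.prod_biUnion h1]
    exact Finset.prod_congr rfl fun x _ => (hS x).2
  · rw [Finset.card_biUnion h1, Finset.sum_congr rfl fun x _ => (hS x).1, Finset.sum_const,
      Finset.card_univ, smul_eq_mul]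

/-- The roots of a polynomial which is a product of different linear factors are determined by the
polynomial. -/
lemma roots_eq (hl : l.Prime) {S S' : Finset (ZMod l)}
    (h : ∏ t ∈ S, (X - C t) = ∏ t ∈ S', (X - C t)) : S = S' := by
  have : Fact l.Prime := ⟨hl⟩
  have h1 := congrArg Polynomial.roots h
  rw [roots_prod_X_sub_C, roots_prod_X_sub_C] at h1
  exact Finset.val_injective h1

variable (hg : 0 < g) (hl : l.Prime) (hc : 0 < c) (h : ∀ x, Dat o g N l q (G x) c)
  (hll : 2 * (Fintype.card T * g : ℕ) ≤ c * l)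

include hg hl hc h hll

/-- General form: the families without common factors which have the pattern `E` at `x₀` and are
split elsewhere. -/
theorem dens_gen (x₀ : T) (E : Set (ZMod l)[X])
    (hE : ∀ f ∈ E, ∃ S : Finset (ZMod l), S.card = g ∧ f = ∏ t ∈ S, (X - C t))
    (hcard : c * (l : ℝ) ^ g ≤ ((E ∩ Good g l q (G x₀)).ncard : ℝ)) :
    (c / 2 / 2 ^ g) ^ Fintype.card T ≤ share g l q G {u | u x₀ ∈ E ∧
      (∀ x, x ≠ x₀ → u x ∈ splitSet g l q) ∧
      ∃ S : T → Finset (ZMod l), (∀ x, (S x).card = g ∧ u x = ∏ t ∈ S x, (X - C t)) ∧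
        ∀ x y, x ≠ y → Disjoint (S x) (S y)} := by
  classical
  set E' : T → Set (ZMod l)[X] := fun x =>
    if x = x₀ then E ∩ Good g l q (G x) else splitSet g l q ∩ Good g l q (G x) with hE'
  refine share_ge hl (fun x => (h x).nonempty) (S := disjPol g E') ?_ ?_ (by positivity)
    (card_disjPol hl g hg E' ?_ c hc ?_ hll)
  · rintro u ⟨h1, S, h2, h3⟩
    refine ⟨?_, fun x hx => ?_, S, h2, h3⟩
    · have := h1 x₀
      rw [hE'] at this
      dsimp only at this
      rw [if_pos rfl] at this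
      exact this.1
    · have := h1 x
      rw [hE'] at this
      dsimp only at this
      rw [if_neg hx] at this
      exact this.1
  · rintro u ⟨h1, -⟩ x
    have := h1 x
    rw [hE'] at this
    dsimp only at this
    split_ifs at this with hx
    · exact this.2
    · exact this.2
  · intro x f hf
    rw [hE'] at hf
    dsimp only at hf
    split_ifs at hf with hx
    · exact hE f hf.1
    · obtain ⟨S, hS, h1, -⟩ := hf.1
      exact ⟨S, hS, h1⟩
  · intro x
    rw [hE']
    dsimp only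
    split_ifs with hx
    · rw [hx]
      exact hcard
    · exact (h x).split

/-- Products. -/
theorem dens_split (x₀ : T) : (c / 2 / 2 ^ g) ^ Fintype.card T ≤ share g l q G
    {u | ∏ x, u x ∈ splitSet (Fintype.card T * g) l q} := by
  classical
  refine (dens_gen hg hl hc h hll x₀ (splitSet g l q) ?_ (h x₀).split).trans
    (share_mono hl ?_)
  · rintro f ⟨S, hS, h1, -⟩
    exact ⟨S, hS, h1⟩
  · rintro u ⟨h1, h2, S, h3, h4⟩
    obtain ⟨h5, h6⟩ := prod_disj h3 h4
    refine ⟨_, h6, h5, ?_⟩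
    intro t ht
    rw [Finset.mem_biUnion] at ht
    obtain ⟨x, -, ht⟩ := ht
    have h7 : u x ∈ splitSet g l q := by
      by_cases hx : x = x₀
      · rw [hx]
        exact h1
      · exact h2 x hx
    obtain ⟨S', -, h8, h9⟩ := h7
    rw [(h3 x).2] at h8
    have h10 := roots_eq hl h8
    exact h9 t (h10 ▸ ht)

theorem dens_flip (x₀ : T) (ho : ¬ o) : (c / 2 / 2 ^ g) ^ Fintype.card T ≤ share g l q G
    {u | ∏ x, u x ∈ flipSet (Fintype.card T * g) N l q} := by
  classical
  refine (dens_gen hg hl hc h hll x₀ (flipSet g N l q) ?_ ((h x₀).flip ho)).trans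
    (share_mono hl ?_)
  · rintro f ⟨S, t₀, hS, -, h1, -⟩
    exact ⟨S, hS, h1⟩
  · rintro u ⟨h1, h2, S, h3, h4⟩
    obtain ⟨h5, h6⟩ := prod_disj h3 h4
    obtain ⟨S', t₀, -, ht₀, h7, h8, h9, h10⟩ := h1
    rw [(h3 x₀).2] at h7
    have h11 := roots_eq hl h7
    refine ⟨_, t₀, h6, Finset.mem_biUnion.2 ⟨x₀, Finset.mem_univ x₀, h11 ▸ ht₀⟩, h5, h8, h9, ?_⟩
    intro t ht hne
    rw [Finset.mem_biUnion] at ht
    obtain ⟨x, -, ht⟩ := ht
    by_cases hx : x = x₀
    · subst hx
      exact h10 t (h11 ▸ ht) hne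
    · obtain ⟨S'', -, h12, h13⟩ := h2 x hx
      rw [(h3 x).2] at h12
      have h14 := roots_eq hl h12
      exact h13 t (h14 ▸ ht)

theorem dens_flip2 (x₀ : T) (ho : o) : (c / 2 / 2 ^ g) ^ Fintype.card T ≤ share g l q G
    {u | ∏ x, u x ∈ flip2Set (Fintype.card T * g) N l q} := by
  classical
  refine (dens_gen hg hl hc h hll x₀ (flip2Set g N l q) ?_ ((h x₀).flip2 ho)).trans
    (share_mono hl ?_)
  · rintro f ⟨S, t₀, t₁, hS, -, -, -, h1, -⟩
    exact ⟨S, hS, h1⟩
  · rintro u ⟨h1, h2, S, h3, h4⟩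
    obtain ⟨h5, h6⟩ := prod_disj h3 h4
    obtain ⟨S', t₀, t₁, -, ht₀, ht₁, hne01, h7, h8, h8', h9, h10⟩ := h1
    rw [(h3 x₀).2] at h7
    have h11 := roots_eq hl h7
    refine ⟨_, t₀, t₁, h6, Finset.mem_biUnion.2 ⟨x₀, Finset.mem_univ x₀, h11 ▸ ht₀⟩,
      Finset.mem_biUnion.2 ⟨x₀, Finset.mem_univ x₀, h11 ▸ ht₁⟩, hne01, h5, h8, h8', h9, ?_⟩
    intro t ht hne hne'
    rw [Finset.mem_biUnion] at ht
    obtain ⟨x, -, ht⟩ := ht
    by_cases hx : x = x₀
    · subst hx
      exact h10 t (h11 ▸ ht) hne hne'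
    · obtain ⟨S'', -, h12, h13⟩ := h2 x hx
      rw [(h3 x).2] at h12
      have h14 := roots_eq hl h12
      exact h13 t (h14 ▸ ht)

/-- Irreducible polynomials everywhere except for one place. -/
theorem dens_irr_gen (x₀ : T) (E : Set (ZMod l)[X])
    (hcard : c * (l : ℝ) ^ g ≤ ((E ∩ Good g l q (G x₀)).ncard : ℝ)) :
    (c / 2 / 2 ^ g) ^ Fintype.card T ≤ share g l q G {u | u x₀ ∈ E ∧
      (∀ x, x ≠ x₀ → u x ∈ irrSet g l)} := by
  classical
  have hlp : (0 : ℝ) < l := by exact_mod_cast hl.pos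
  set E' : T → Set (ZMod l)[X] := fun x =>
    if x = x₀ then E ∩ Good g l q (G x) else irrSet g l ∩ Good g l q (G x) with hE'
  refine share_ge hl (fun x => (h x).nonempty) (S := {u | ∀ x, u x ∈ E' x}) ?_ ?_ (by positivity)
    ?_
  · intro u h1
    refine ⟨?_, fun x hx => ?_⟩
    · have := h1 x₀
      rw [hE'] at this
      dsimp only at this
      rw [if_pos rfl] at this
      exact this.1
    · have := h1 x
      rw [hE'] at this
      dsimp only at this
      rw [if_neg hx] at this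
      exact this.1
  · intro u h1 x
    have := h1 x
    rw [hE'] at this
    dsimp only at this
    split_ifs at this with hx
    · exact this.2
    · exact this.2
  · rw [ncard_pi' E']
    push_cast
    rw [← Finset.card_univ, ← Finset.prod_const]
    refine Finset.prod_le_prod (fun x _ => by positivity) fun x _ => ?_
    have h1 : c / 2 * (l : ℝ) ^ g ≤ c * (l : ℝ) ^ g := by
      refine mul_le_mul_of_nonneg_right ?_ (by positivity)
      linarith
    refine h1.trans ?_
    rw [hE']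
    dsimp only
    split_ifs with hx
    · rw [hx]
      exact hcard
    · exact (h x).irr

theorem dens_irr (x₀ : T) : (c / 2 / 2 ^ g) ^ Fintype.card T ≤ share g l q G
    {u | Irreducible (u x₀)} := by
  refine (dens_irr_gen hg hl hc h hll x₀ (irrSet g l) (h x₀).irr).trans (share_mono hl ?_)
  rintro u ⟨h1, -⟩
  exact h1.2.2

lemma irr_no_root {f : (ZMod l)[X]} (hf : Irreducible f) (hd : 2 ≤ f.natDegree) (s : ZMod l) :
    f.eval s ≠ 0 := by
  have : Fact l.Prime := ⟨hl⟩
  intro hs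
  obtain ⟨v, hv⟩ := dvd_iff_isRoot.mpr hs
  rcases hf.isUnit_or_isUnit hv with h1 | h1
  · exact (not_isUnit_X_sub_C s) h1
  · have h2 : v.natDegree = 0 := natDegree_eq_zero_of_isUnit h1
    have h3 : f.natDegree = (X - C s).natDegree + v.natDegree := by
      rw [hv]
      exact natDegree_mul (X_sub_C_ne_zero s) h1.ne_zero
    rw [natDegree_X_sub_C, h2] at h3
    omega

theorem dens_fix (x₀ : T) (ho : o) (hg3 : 3 ≤ g) : (c / 2 / 2 ^ g) ^ Fintype.card T ≤
    share g l q G {u | ∃ (t : ZMod l) (v : (ZMod l)[X]), ∏ x, u x = (X - C t) * v ∧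
      ∀ s, v.eval s ≠ 0} := by
  classical
  have : Fact l.Prime := ⟨hl⟩
  refine (dens_irr_gen hg hl hc h hll x₀ (fixSet g l) ((h x₀).fix ho)).trans (share_mono hl ?_)
  rintro u ⟨⟨t, v, hvm, hvd, hvi, hv⟩, h2⟩
  refine ⟨t, v * ∏ x ∈ Finset.univ.erase x₀, u x, ?_, fun s => ?_⟩
  · rw [← Finset.mul_prod_erase _ _ (Finset.mem_univ x₀), hv, mul_assoc]
  · rw [eval_mul, eval_prod]
    refine mul_ne_zero (irr_no_root hg hl hc h hll hvi (by omega) s) ?_
    refine Finset.prod_ne_zero_iff.2 fun x hx => ?_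
    obtain ⟨-, h4, h5⟩ := h2 x (Finset.ne_of_mem_erase hx)
    exact irr_no_root hg hl hc h hll h5 (by omega) s

end Tuple

end Pool.Agent.V8H88.RM
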