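import Pool.Agent.V8H88.UF.Act
import Pool.Agent.W521.Frob

/-!
# A Frobenius element which fixes exactly one root
-/

set_option autoImplicit false

open Polynomial NumberField

namespace Pool.Agent.V8H88.RM

open Pool.Agent.W521.Frob Pool.Agent.V8H88.UF

/-- A Frobenius element which fixes exactly one root. -/
theorem exists_fix (h : ℤ[X]) (hm : h.Monic) (L : Type) [Field L] [NumberField L] [IsGalois ℚ L]
    (hsplit : (h.map (algebraMap ℤ L)).Splits) (l : ℕ) (hl : l.Prime) (t : ZMod l)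
    (u : (ZMod l)[X]) (hfac : h.map (Int.castRingHom (ZMod l)) = (X - C t) * u)
    (hu : ∀ s, u.eval s ≠ 0) :
    ∃ (σ : Gal(L/ℚ)) (θ : L), aeval θ h = 0 ∧ σ θ = θ ∧
      ∀ θ' : L, aeval θ' h = 0 → σ θ' = θ' → θ' = θ := by
  have : Fact l.Prime := ⟨hl⟩
  obtain ⟨k, _, hchar, ρ, σ, hσ⟩ := exists_frob L l hl
  set ψ : ZMod l →+* k := ZMod.castHom (dvd_refl l) k with hψ
  set f : (𝓞 L)[X] := h.map (Int.castRingHom (𝓞 L)) with hf
  have hfm : f.Monic := hm.map _
  have hfρ : f.map ρ = (X - C (ψ t)) * u.map ψ := by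
    rw [hf, Polynomial.map_map, RingHom.ext_int (ρ.comp (Int.castRingHom (𝓞 L)))
      (ψ.comp (Int.castRingHom (ZMod l))), ← Polynomial.map_map, hfac, Polynomial.map_mul,
      Polynomial.map_sub, map_X, map_C]
  have hcoef : ∀ i, σ • f.coeff i = f.coeff i := by
    intro i
    rw [hf, coeff_map]
    change σ • ((h.coeff i : ℤ) : 𝓞 L) = ((h.coeff i : ℤ) : 𝓞 L)
    exact map_intCast (MulSemiringAction.toRingHom (Gal(L/ℚ)) (𝓞 L) σ) (h.coeff i)
  have hut : (u.map ψ).eval (ψ t) ≠ 0 := by
    rw [eval_map_apply]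
    intro h0
    exact hu t (ψ.injective (by rw [h0, map_zero]))
  -- roots with the same reduction
  have huniq : ∀ x y : 𝓞 L, f.eval x = 0 → f.eval y = 0 → ρ x = ψ t → ρ y = ψ t → x = y := by
    intro x y hx hy hxt hyt
    by_contra hne
    obtain ⟨g, hg⟩ := dvd_iff_isRoot.2 hx
    have h1 : g.eval y = 0 := by
      have h2 : (y - x) * g.eval y = 0 := by
        have h3 := hy
        rw [hg, eval_mul, eval_sub, eval_X, eval_C] at h3
        exact h3
      exact (mul_eq_zero.1 h2).resolve_left (sub_ne_zero.2 (Ne.symm hne))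
    have h2 : (X - C (ψ t)) * u.map ψ = (X - C (ψ t)) * g.map ρ := by
      rw [← hfρ, hg, Polynomial.map_mul, Polynomial.map_sub, map_X, map_C, hxt]
    have h3 := mul_left_cancel₀ (X_sub_C_ne_zero (ψ t)) h2
    apply hut
    rw [h3, ← hyt, eval_map_apply, h1, map_zero]
  obtain ⟨x₁, hx₁, hρx₁⟩ := exists_lift ρ f hfm (by
    rw [hf, Polynomial.map_map, RingHom.ext_int ((algebraMap (𝓞 L) L).comp
      (Int.castRingHom (𝓞 L))) (algebraMap ℤ L)]
    exact hsplit) (ψ t) (by rw [hfρ, eval_mul, eval_sub, eval_X, eval_C, sub_self, zero_mul])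
  have hdown : ∀ x : 𝓞 L, f.eval x = 0 ↔ aeval (x : L) h = 0 := by
    intro x
    have h1 : aeval (x : L) h = ((f.eval x : 𝓞 L) : L) := by
      rw [hf, eval_map]
      have h2 : ((eval₂ (Int.castRingHom (𝓞 L)) x h : 𝓞 L) : L) =
          algebraMap (𝓞 L) L (eval₂ (Int.castRingHom (𝓞 L)) x h) := rfl
      rw [h2, hom_eval₂, aeval_def]
      congr 1
    rw [h1]
    constructor
    · intro h2
      rw [h2]
      rfl
    · intro h2
      exact RingOfIntegers.coe_injective h2
  refine ⟨σ, (x₁ : L), (hdown x₁).1 hx₁, ?_, ?_⟩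
  · have h1 : σ • x₁ = x₁ := by
      refine huniq _ _ (eval_smul f hcoef x₁ hx₁) hx₁ ?_ hρx₁
      rw [hσ, hρx₁, cast_pow_card]
    exact congrArg (fun x : 𝓞 L => (x : L)) h1
  · intro θ' hθ' hfix
    have hint : IsIntegral ℤ θ' := ⟨h, hm, hθ'⟩
    obtain ⟨y, rfl⟩ : ∃ y : 𝓞 L, (y : L) = θ' := ⟨⟨θ', hint⟩, rfl⟩
    have hy : f.eval y = 0 := (hdown y).2 hθ'
    have hfix' : σ • y = y := RingOfIntegers.coe_injective hfix
    have h1 : ρ y ^ l = ρ y := by rw [← hσ, hfix']
    -- the reduction is in the prime field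
    have h2 : ∃ s : ZMod l, ψ s = ρ y := by
      classical
      by_contra hno
      push Not at hno
      have hq : (X ^ l - X : k[X]) ≠ 0 := FiniteField.X_pow_card_sub_X_ne_zero k hl.one_lt
      have hdegq : (X ^ l - X : k[X]).natDegree = l :=
        FiniteField.X_pow_card_sub_X_natDegree_eq k hl.one_lt
      have hsub : insert (ρ y) (Finset.univ.image ψ) ⊆ (X ^ l - X : k[X]).roots.toFinset := by
        intro x hx
        rw [Multiset.mem_toFinset, mem_roots hq, IsRoot.def, eval_sub, eval_pow, eval_X, sub_eq_zero]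
        rw [Finset.mem_insert, Finset.mem_image] at hx
        rcases hx with rfl | ⟨s, _, rfl⟩
        · exact h1
        · exact cast_pow_card l k s
      have hc1 := Finset.card_le_card hsub
      have hc2 : (X ^ l - X : k[X]).roots.toFinset.card ≤ l :=
        (Multiset.toFinset_card_le _).trans ((card_roots' _).trans hdegq.le)
      rw [Finset.card_insert_of_notMem, Finset.card_image_of_injective _ ψ.injective,
        Finset.card_univ, ZMod.card] at hc1
      · omega
      · intro hx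
        rw [Finset.mem_image] at hx
        obtain ⟨s, _, hs⟩ := hx
        exact hno s hs
    obtain ⟨s, hs⟩ := h2
    have h3 : (f.map ρ).eval (ρ y) = 0 := eval_map_zero f y hy
    rw [hfρ, eval_mul, eval_sub, eval_X, eval_C, mul_eq_zero, sub_eq_zero] at h3
    rcases h3 with h3 | h3
    · exact congrArg (fun x : 𝓞 L => (x : L)) (huniq y x₁ hy hx₁ h3 hρx₁)
    · exfalso
      rw [← hs, eval_map_apply] at h3
      exact hu s (ψ.injective (by rw [h3, map_zero]))

end Pool.Agent.V8H88.RM
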