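import Pool.Agent.V8H88.RM.Fix
import Pool.Agent.W928.MF.NT2
import Pool.Agent.W902.MF.FLIP2
import Pool.Agent.W976.MF.FLIP

/-!
# The patterns imply that the relations are balanced, with given irreducibility
-/

set_option autoImplicit false

open Polynomial NumberField

namespace Pool.Agent.V8H88.RM

open Pool.Agent.W458.MF Pool.Agent.W521.Frob Pool.Agent.W521.Criterion Pool.Agent.W338.MF
  Pool.Agent.W928.MF

theorem nt3 {I : Type} [Finite I] (o : I → Prop) (q : I → ℕ) (h : I → ℤ[X])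
    (R : ℤ[X]) (N : ℕ) (hq : ∀ i, 0 < q i) (hm : ∀ i, (h i).Monic)
    (hR : R.Monic)
    (huni : ∀ i, ∀ z : ℂ, (∃ t : ℕ, 0 < t ∧ z ^ t = 1) →
      (∃ P : ℚ[X], P ≠ 0 ∧ P.natDegree ≤ 2 * (h i).natDegree ∧ aeval z P = 0) → z ^ N = 1)
    (hirr : ∀ i, Irreducible ((h i).map (Int.castRingHom ℚ)))
    (hflip : ∀ i₀, ¬ o i₀ → ∃ l : ℕ, l.Prime ∧ l ≠ 2 ∧ (∀ i, ¬ l ∣ q i) ∧ SplitsMod R l ∧
      (h i₀).map (Int.castRingHom (ZMod l)) ∈ flipSet (h i₀).natDegree N l (q i₀) ∧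
      ∀ i, i ≠ i₀ → (h i).map (Int.castRingHom (ZMod l)) ∈ splitSet (h i).natDegree l (q i))
    (hflip2 : ∀ i₀, o i₀ →
      (∃ l : ℕ, l.Prime ∧ ∃ (t : ZMod l) (u : (ZMod l)[X]),
        (h i₀).map (Int.castRingHom (ZMod l)) = (X - C t) * u ∧ ∀ s, u.eval s ≠ 0) ∧
      ∃ l : ℕ, l.Prime ∧ l ≠ 2 ∧ (∀ i, ¬ l ∣ q i) ∧ SplitsMod R l ∧
        (h i₀).map (Int.castRingHom (ZMod l)) ∈ flip2Set (h i₀).natDegree N l (q i₀) ∧
        ∀ i, i ≠ i₀ → (h i).map (Int.castRingHom (ZMod l)) ∈ splitSet (h i).natDegree l (q i)) :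
    Balanced q h R ∧ ∀ i, ((weil (q i) (h i)).map (Int.castRingHom ℚ)).Separable := by
  classical
  have hF : St_FLIP := W976.MF.FLIP
  have hF2 : St_FLIP2 := W902.MF.FLIP2
  have hq' : ∀ i, q i ≠ 0 := fun i => (hq i).ne'
  cases nonempty_fintype I
  have hPm : ((∏ i, weil (q i) (h i)) * R).Monic :=
    (monic_prod_of_monic _ _ fun i _ => weil_monic (q i) (hm i)).mul hR
  obtain ⟨L, _, _, _, j, hj⟩ := exists_field' _ hPm
  have hL : ∀ i, ∀ z : ℂ, aeval z (weil (q i) (h i)) = 0 → ∃ x : L, j x = z := by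
    intro i z hz
    apply hj
    rw [map_mul, map_prod, Finset.prod_eq_zero (Finset.mem_univ i) hz, zero_mul]
  have hLR : ∀ z : ℂ, aeval z R = 0 → ∃ x : L, j x = z := by
    intro z hz
    apply hj
    rw [map_mul, hz, mul_zero]
  have hsp : ∀ i, ((h i).map (algebraMap ℤ L)).Splits := fun i =>
    splits_h (I := Unit) (hq' i) (fun _ => hm i) L j (fun _ => hL i) ()
  have hqd : ∀ i, ∀ θ : L, aeval θ (h i) = 0 → ∃ α : L, α ^ 2 + (q i : L) = θ * α := fun i =>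
    quad_L (I := Unit) (hq' i) (fun _ => hm i) L j (fun _ => hL i) ()
  have key : ∀ i, ∀ α : L, aeval α (weil (q i) (h i)) = 0 →
      (Flp q h R i α ∨ Flp2 q h R i α) ∧
      ∀ t : ℕ, 0 < t → (α ^ 2) ^ t ≠ (q i : L) ^ t := by
    intro i α hα
    by_cases ho : o i
    · obtain ⟨⟨l', hl', t', u', hfac, hu'⟩, l, hl, hl2, hlq, hlR, hfl, hspl⟩ := hflip2 i ho
      obtain ⟨T, t₀, t₁, hTc, ht₀, ht₁, hne01, hT, hns0, hns1, hlu, hsq⟩ := hfl
      obtain ⟨σ, θ₀, θ₁, a1, a2, a3, a4, a5, a6, a7, a8⟩ := hF2 q h R (luc (q i) N) hm hR L i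
        (hsp i) (hqd i) l hl hl2 hlq hlR hspl ⟨T, t₀, t₁, ht₀, ht₁, hne01, hT, hns0, hns1, hlu, hsq⟩
      have hE : Edg q h R i θ₀ θ₁ := ⟨σ, a5, a6, a7, a8⟩
      obtain ⟨ρ, ϑ, b1, b2, b3⟩ := exists_fix (h i) (hm i) L (hsp i) l' hl' t' u' hfac hu'
      have hqL : (q i : L) ≠ 0 := by exact_mod_cast hq' i
      refine ⟨Or.inr ?_, ?_⟩
      · have hθ := ((root_iff (hq' i) (hm i) α).1 hα).2
        obtain ⟨θ', θ'', c1, c2, c3, c4, c5⟩ := two_partners hm L i (hirr i) θ₀ θ₁ a1 a2 a3 hE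
          ρ ϑ b1 b2 b3 (α + (q i : L) / α) hθ
        exact flp2_of_edg hq' hm L i (hqd i) α hα θ' θ'' c1 c2 c3 c4 c5
      · intro t ht hαt
        obtain ⟨α₀, hα₀⟩ := hqd i θ₀ a1
        have hα₀0 : α₀ ≠ 0 := by
          rintro rfl
          rw [zero_pow two_ne_zero, zero_add, mul_zero] at hα₀
          exact hqL hα₀
        have hα₀w : aeval α₀ (weil (q i) (h i)) = 0 := by
          rw [aeval_weil (q i) (h i) α₀ θ₀ hα₀, a1, mul_zero]
        have hθe : α₀ + (q i : L) / α₀ = θ₀ := by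
          apply mul_right_cancel₀ hα₀0
          rw [← hα₀]
          field_simp
        have hne := (a5 α₀ hα₀w (Or.inl hθe)).2
        refine no_rou hq' hm L j hL i (hirr i) (huni i) α₀ hα₀w hne ?_ α hα t ht hαt
        rw [hθe]
        exact a4
    · obtain ⟨l, hl, hl2, hlq, hlR, hfl, hspl⟩ := hflip i ho
      obtain ⟨T, t₀, hTc, ht₀, hT, hns, hlu, hsq⟩ := hfl
      obtain ⟨σ, α₀, a1, a2, a3, a4, a5, a6, a7⟩ := hF q h R (luc (q i) N) hm hR L i (hsp i)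
        (hqd i) l hl hl2 hlq hlR hspl ⟨T, t₀, ht₀, hT, hns, hlu, hsq⟩
      have hfl0 : Flp q h R i α₀ := ⟨σ, a2, a3, a5, a6, a7⟩
      exact ⟨Or.inl (flp_conj hq' hm L j hL i (hirr i) α₀ a1 hfl0 α hα), fun t ht hαt =>
        no_rou hq' hm L j hL i (hirr i) (huni i) α₀ a1 a3 a4 α hα t ht hαt⟩
  refine ⟨?_, ?_⟩
  · unfold Pool.Agent.W458.MF.Balanced
    intro l hl t ht ν hν c hc hprod i z
    exact bal2 hq' hm L j hL hLR key l hl t ht ν hν c hc hprod i z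
  · intro i
    refine sep (hq' i) (hm i) (hirr i) L (hsp i) (hqd i) fun α hα => ?_
    obtain ⟨hor, -⟩ := key i α hα
    rcases hor with ⟨σ, s1, s2, -⟩ | ⟨α', σ, τ, n0, n1, n2, n3, -⟩
    · exact s2
    · exact n3

end Pool.Agent.V8H88.RM
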