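import Pool.Agent.V8H88.UF.Spl

/-!
# Norms of polynomials over the ring of integers
-/

set_option autoImplicit false
set_option linter.unusedSectionVars false

open Polynomial NumberField

namespace Pool.Agent.V8H88.RM

open Pool.Agent.W521.Frob Pool.Agent.W458.MF Pool.Agent.W338.MF Pool.Agent.V8H88.UF

variable {K : Type} [Field K] [NumberField K] {θ : 𝓞 K} {N : ℕ}

/-- The reduction of the norm of a polynomial modulo a prime which splits completely. -/
theorem norm_red (hθ : IsGen K θ N) (l : ℕ) (hl : l.Prime)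
    (hs : SplitsMod (minpoly ℤ θ) l) (hN : ¬ l ∣ N) (h : ℤ[X]) (P : (𝓞 K)[X])
    (hn : h.map (Int.castRingHom ℂ) =
      ∏ φ : K →+* ℂ, P.map (φ.comp (algebraMap (𝓞 K) K)))
    [Fintype (𝓞 K →+* ZMod l)] :
    h.map (Int.castRingHom (ZMod l)) = ∏ χ : 𝓞 K →+* ZMod l, P.map χ := by
  classical
  have : Fact l.Prime := ⟨hl⟩
  have hcard := splitsCompletely_of hθ l hl hs hN
  obtain ⟨T, hT⟩ := hs
  have hθi : IsIntegral ℤ θ := Algebra.IsIntegral.isIntegral θ
  obtain ⟨L, _, _, _, j, hj⟩ := exists_field' (minpoly ℤ θ) (minpoly.monic hθi)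
  obtain ⟨k, _, hchar, ρ, σ, hσ⟩ := exists_frob L l hl
  choose em hem using fun φ : K →+* ℂ => hθ.exists_emb j hj φ
  choose red hred using fun φ : K →+* ℂ => exists_red hσ hθ hN T hT (em φ)
  have hri : Function.Injective red := by
    intro φ φ' h
    have h1 : em φ = em φ' := by
      refine red_injective (ρ := ρ) hθ T hT _ _ ?_
      rw [← hred φ, ← hred φ', h]
    rw [← hem φ, ← hem φ', h1]
  have hrb : Function.Bijective red := by
    refine (Fintype.bijective_iff_injective_and_card red).2 ⟨hri, ?_⟩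
    rw [NumberField.Embeddings.card K ℂ, ← Nat.card_eq_fintype_card]
    exact hcard.symm
  set ψ : ZMod l →+* k := ZMod.castHom (dvd_refl l) k with hψ
  -- over the integers of `L`
  have h1 : h.map (Int.castRingHom (𝓞 L)) = ∏ φ : K →+* ℂ, blk (em φ) P := by
    have hinj : Function.Injective (j.comp (algebraMap (𝓞 L) L)) :=
      j.injective.comp RingOfIntegers.coe_injective
    apply map_injective _ hinj
    rw [Polynomial.map_map, RingHom.ext_int ((j.comp (algebraMap (𝓞 L) L)).comp
      (Int.castRingHom (𝓞 L))) (Int.castRingHom ℂ), hn, Polynomial.map_prod]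
    refine Finset.prod_congr rfl fun φ _ => ?_
    unfold blk
    rw [Polynomial.map_map]
    congr 1
    ext x
    have h2 := RingHom.congr_fun (hem φ) (x : K)
    exact h2.symm
  have h2 : (h.map (Int.castRingHom (ZMod l))).map ψ =
      (∏ χ : 𝓞 K →+* ZMod l, P.map χ).map ψ := by
    rw [Polynomial.map_map, RingHom.ext_int (ψ.comp (Int.castRingHom (ZMod l)))
      (ρ.comp (Int.castRingHom (𝓞 L))), ← Polynomial.map_map, h1, Polynomial.map_prod,
      Polynomial.map_prod, ← hrb.prod_comp]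
    refine Finset.prod_congr rfl fun φ _ => ?_
    exact blk_map_red (em φ) P (red φ) (hred φ)
  exact map_injective ψ ψ.injective h2

/-- An integral polynomial with squarefree reduction is separable. -/
theorem separable_of_squarefree_map (h : ℤ[X]) (hm : h.Monic) (l : ℕ) (hl : l.Prime)
    (hsq : Squarefree (h.map (Int.castRingHom (ZMod l)))) :
    (h.map (Int.castRingHom ℚ)).Separable := by
  have : Fact l.Prime := ⟨hl⟩
  rw [PerfectField.separable_iff_squarefree]
  intro x hx
  by_contra hu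
  have hx0 : x ≠ 0 := by
    rintro rfl
    rw [mul_zero, zero_dvd_iff] at hx
    exact (hm.map (Int.castRingHom ℚ)).ne_zero hx
  -- make `x` monic
  set y : ℚ[X] := x * C (x.leadingCoeff)⁻¹ with hy
  have hym : y.Monic := monic_mul_leadingCoeff_inv hx0
  have hyd : y * y ∣ h.map (Int.castRingHom ℚ) := by
    have h1 : y * y ∣ x * x * (C (x.leadingCoeff)⁻¹ * C (x.leadingCoeff)⁻¹) := by
      rw [hy]
      exact dvd_of_eq (by ring)
    have h2 : IsUnit (C (x.leadingCoeff)⁻¹ * C (x.leadingCoeff)⁻¹ : ℚ[X]) := by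
      have h3 : IsUnit (C (x.leadingCoeff)⁻¹ : ℚ[X]) :=
        isUnit_C.2 (isUnit_iff_ne_zero.2 (inv_ne_zero (leadingCoeff_ne_zero.2 hx0)))
      exact h3.mul h3
    exact h1.trans ((h2.mul_right_dvd).2 hx)
  obtain ⟨g, hg⟩ := IsIntegrallyClosed.eq_map_mul_C_of_dvd ℚ hm
    (show y ∣ h.map (algebraMap ℤ ℚ) from (dvd_mul_right y y).trans hyd)
  rw [hym.leadingCoeff, C_1, mul_one] at hg
  have hgm : g.Monic := by
    have h1 : (g.map (algebraMap ℤ ℚ)).Monic := by rw [hg]; exact hym
    exact monic_of_injective (algebraMap ℤ ℚ).injective_int h1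
  have hgd : g * g ∣ h := by
    refine (Monic.dvd_iff_fraction_map_dvd_fraction_map (K := ℚ) hm (hgm.mul hgm)).1 ?_
    rw [Polynomial.map_mul, hg]
    exact hyd
  have h1 : g.map (Int.castRingHom (ZMod l)) * g.map (Int.castRingHom (ZMod l)) ∣
      h.map (Int.castRingHom (ZMod l)) := by
    rw [← Polynomial.map_mul]
    exact Polynomial.map_dvd _ hgd
  have h2' : IsUnit (g.map (Int.castRingHom (ZMod l))) := hsq _ h1
  have h2 : (g.map (Int.castRingHom (ZMod l))).natDegree = 0 := natDegree_eq_zero_of_isUnit h2'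
  rw [hgm.natDegree_map] at h2
  have h3 : g = 1 := hgm.natDegree_eq_zero.1 h2
  have h4 : y = 1 := by rw [← hg, h3, Polynomial.map_one]
  apply hu
  refine IsUnit.of_mul_eq_one (C (x.leadingCoeff)⁻¹) ?_
  rw [← hy, h4]

/-- The norm of an irreducible polynomial is irreducible if it is separable. -/
theorem irreducible_of_norm (h : ℤ[X]) (hm : h.Monic) (P : (𝓞 K)[X]) (hP : P.Monic)
    (hn : h.map (Int.castRingHom ℂ) =
      ∏ φ : K →+* ℂ, P.map (φ.comp (algebraMap (𝓞 K) K)))
    (hsep : (h.map (Int.castRingHom ℚ)).Separable)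
    {l' : ℕ} (hl' : l'.Prime) (χ : 𝓞 K →+* ZMod l') (hirr : Irreducible (P.map χ)) :
    Irreducible (h.map (Int.castRingHom ℚ)) := by
  classical
  have : Fact l'.Prime := ⟨hl'⟩
  have hPi : Irreducible P := Monic.irreducible_of_irreducible_map χ P hP hirr
  have hPK : Irreducible (P.map (algebraMap (𝓞 K) K)) :=
    (Monic.irreducible_iff_irreducible_map_fraction_map hP).1 hPi
  set hQ : ℚ[X] := h.map (Int.castRingHom ℚ) with hhQ
  have hQm : hQ.Monic := hm.map _
  have hC : h.map (Int.castRingHom ℂ) = hQ.map (algebraMap ℚ ℂ) := by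
    rw [hhQ, Polynomial.map_map]
    congr 1
  have hdeg : hQ.natDegree ≠ 0 := by
    intro h0
    have h1 : hQ = 1 := hQm.natDegree_eq_zero.1 h0
    rw [hC, h1, Polynomial.map_one] at hn
    have hne : Nonempty (K →+* ℂ) := inferInstance
    obtain ⟨φ⟩ := hne
    have h2 : P.map (φ.comp (algebraMap (𝓞 K) K)) ∣ 1 := by
      rw [hn]
      exact Finset.dvd_prod_of_mem _ (Finset.mem_univ φ)
    have h3 := natDegree_eq_zero_of_isUnit (isUnit_of_dvd_one h2)
    rw [hP.natDegree_map, ← hP.natDegree_map χ] at h3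
    exact (hirr.natDegree_pos).ne' h3
  obtain ⟨R, hR, hRd⟩ := exists_irreducible_of_natDegree_ne_zero hdeg
  clear_value hQ
  -- a root of the factor
  have hRdeg : 0 < (R.map (algebraMap ℚ ℂ)).degree := by
    rw [degree_map]
    exact natDegree_pos_iff_degree_pos.1 hR.natDegree_pos
  obtain ⟨z, hz⟩ := IsAlgClosed.exists_root (R.map (algebraMap ℚ ℂ)) hRdeg.ne'
  have hzh : (h.map (Int.castRingHom ℂ)).eval z = 0 := by
    rw [hC]
    exact eval_eq_zero_of_dvd_of_eval_eq_zero (Polynomial.map_dvd _ hRd) hz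
  rw [hn, eval_prod, Finset.prod_eq_zero_iff] at hzh
  obtain ⟨φ, -, hzφ⟩ := hzh
  -- the polynomial over `K` divides the factor
  have hPR : P.map (algebraMap (𝓞 K) K) ∣ R.map (algebraMap ℚ K) := by
    by_contra hnd
    have hcop : IsCoprime (P.map (algebraMap (𝓞 K) K)) (R.map (algebraMap ℚ K)) :=
      (hPK.coprime_iff_not_dvd).2 hnd
    have h1 := hcop.map (mapRingHom φ)
    obtain ⟨a, b, hab⟩ := h1
    have h2 := congrArg (eval z) hab
    rw [eval_add, eval_mul, eval_mul, coe_mapRingHom, Polynomial.map_map, Polynomial.map_map,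
      hzφ, eval_one, mul_zero, zero_add] at h2
    have h3 : φ.comp (algebraMap ℚ K) = algebraMap ℚ ℂ := Subsingleton.elim _ _
    rw [h3] at h2
    rw [IsRoot.def] at hz
    rw [hz, mul_zero] at h2
    exact zero_ne_one h2
  -- the product divides the factor
  have hsepC : (∏ φ : K →+* ℂ, P.map (φ.comp (algebraMap (𝓞 K) K))).Separable := by
    rw [← hn, hC]
    exact hsep.map
  have hprod : (∏ φ : K →+* ℂ, P.map (φ.comp (algebraMap (𝓞 K) K))) ∣
      R.map (algebraMap ℚ ℂ) := by
    refine Finset.prod_dvd_of_coprime ?_ ?_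
    · intro φ₁ _ φ₂ _ hne
      have h1 : (∏ φ : K →+* ℂ, P.map (φ.comp (algebraMap (𝓞 K) K))) =
          (P.map (φ₁.comp (algebraMap (𝓞 K) K)) * P.map (φ₂.comp (algebraMap (𝓞 K) K))) *
            ∏ φ ∈ (Finset.univ.erase φ₁).erase φ₂, P.map (φ.comp (algebraMap (𝓞 K) K)) := by
        rw [mul_assoc, Finset.mul_prod_erase (Finset.univ.erase φ₁)
          (fun φ : K →+* ℂ => P.map (φ.comp (algebraMap (𝓞 K) K))) (Finset.mem_erase.2
            ⟨Ne.symm hne, Finset.mem_univ φ₂⟩), Finset.mul_prod_erase Finset.univ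
          (fun φ : K →+* ℂ => P.map (φ.comp (algebraMap (𝓞 K) K))) (Finset.mem_univ φ₁)]
      rw [h1] at hsepC
      exact (Separable.of_mul_left hsepC).isCoprime
    · intro φ' _
      have h1 := Polynomial.map_dvd φ' hPR
      rw [Polynomial.map_map, Polynomial.map_map] at h1
      have h3 : φ'.comp (algebraMap ℚ K) = algebraMap ℚ ℂ := Subsingleton.elim _ _
      rwa [h3] at h1
  rw [← hn, hC, map_dvd_map' (algebraMap ℚ ℂ)] at hprod
  exact (associated_of_dvd_dvd hRd hprod).irreducible hR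

end Pool.Agent.V8H88.RM
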