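import Pool.Agent.V8H88.RM.Dens
import Pool.Agent.V8H88.RM.Norm
import Pool.Agent.V8H88.RM.NT3
import Pool.Agent.V8H88.UF.Main

/-!
# Families with real multiplication: almost all tuples satisfy the hypotheses of the geometric
theorem
-/

set_option autoImplicit false
set_option linter.unusedSectionVars false

open CategoryTheory AlgebraicGeometry Polynomial NumberField

universe u v

namespace Pool.Agent.V8H88.RM

open Pool.Agent.H914 Pool.Agent.W534 Pool.Agent.W521.Frob Pool.Agent.W458.MF VarClass Obj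
  WeilCohomology Pool.Agent.V8H88.UF

/-- The densities for the sets of matrices of a family. -/
theorem exists_dat (g N p d : ℕ) (hg : 0 < g) (hN : 0 < N) (hp : p.Prime) {X : ℕ → Type}
    (G : ∀ m l : ℕ, X l → Set (Mat g l))
    (hG : (∀ m l χ, G m l χ = similitudes g l ((p ^ (d * m) : ℕ) : ZMod l)) ∨
      (3 ≤ g ∧ ∃ n, d = 2 * n ∧ ∀ m l χ, ∃ κ, G m l χ = scaled g l (p ^ (n * m)) κ)) :
    ∃ (o : Prop) (c : ℝ) (l₁ : ℕ), 0 < c ∧ (o → 3 ≤ g) ∧ ∀ l : ℕ, l.Prime → l₁ ≤ l → ¬ l ∣ p →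
      ∀ m, ∀ χ, Dat o g N l (p ^ (d * m)) (G m l χ) c := by
  rcases hG with hG | ⟨hg3, n, rfl, hG⟩
  · obtain ⟨c, hc, l₁, h⟩ := dat_symplectic g N hg hN
    refine ⟨False, c, l₁, hc, fun h => h.elim, fun l hl hll hlp m χ => ?_⟩
    rw [hG]
    exact h l hl hll _ fun h => hlp (hl.dvd_of_dvd_pow h)
  · obtain ⟨c, hc, l₁, h⟩ := dat_orthogonal g N hg3 hN
    refine ⟨True, c, l₁, hc, fun _ => hg3, fun l hl hll hlp m χ => ?_⟩
    obtain ⟨κ, hκ⟩ := hG m l χ
    rw [hκ]
    have h1 := h l hl hll (p ^ (n * m)) (fun h => hlp (hl.dvd_of_dvd_pow h)) κ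
    have h2 : (p ^ (n * m)) ^ 2 = p ^ (2 * n * m) := by
      rw [← pow_mul]
      congr 1
      ring
    rw [h2] at h1
    exact h1

section Family

variable {k : Type u} [Field k] {𝒱 : VarClass k} {ops : CycleOps 𝒱}
  {W : WeilCohomology.{u, v} ops} {Y : 𝒱.Obj} {p : ℕ} {Φ : FrobSystem W p}

section One

variable {K : Type} [Field K] [NumberField K] {F : RFamily W Y K} {d g l₀ : ℕ}
  {D : ℤ[X]} {G : ∀ m l : ℕ, (𝓞 K →+* ZMod l) → Set (Mat g l)}

/-- The degree of the polynomial of a member. -/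
lemma degree_pol (hF : F.HasMonodromy Φ d g l₀ D G) (m : ℕ) (hm : 0 < m) (s : F.S m) :
    (F.member m s).pol.natDegree = Module.finrank ℚ K * g := by
  have h1 := congrArg natDegree (hF.norm m s)
  have hmon := (hF.isOver m hm s).monic
  rw [hmon.natDegree_map, natDegree_prod_of_monic _ _ fun φ _ => (hF.monic m s).map _] at h1
  rw [h1, Finset.sum_congr rfl fun φ _ =>
      (hF.monic m s).natDegree_map (φ.comp (algebraMap (𝓞 K) K)),
    Finset.sum_const, Finset.card_univ, hF.degree m s, smul_eq_mul,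
    NumberField.Embeddings.card K ℂ]

/-- The set of members with a pattern. -/
def RFamily.rpat (F : RFamily W Y K) (m l : ℕ) (E : Set ((𝓞 K →+* ZMod l) → (ZMod l)[X])) :
    Set (F.S m) :=
  {s | (fun χ : 𝓞 K →+* ZMod l => (F.rpol m s).map χ) ∈ E}

lemma equi_pair (hF : F.HasMonodromy Φ d g l₀ D G) {l l' : ℕ} (hl : l.Prime)
    (hl' : l'.Prime) (h0 : l₀ ≤ l) (h0' : l₀ ≤ l') (hll : l ≠ l') (hs : SplitsCompletely K l)
    (hs' : SplitsCompletely K l') (hD : SplitsMod D l) (hD' : SplitsMod D l') {ε : ℝ}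
    (hε : 0 < ε) :
    ∃ m₀ : ℕ, ∀ m ≥ m₀, Nonempty (F.S m) →
      ∀ (E : Set ((𝓞 K →+* ZMod l) → (ZMod l)[X])) (E' : Set ((𝓞 K →+* ZMod l') → (ZMod l')[X])),
        |((F.rpat m l E ∩ F.rpat m l' E').ncard : ℝ) / (Nat.card (F.S m) : ℝ) -
          share g l (p ^ (d * m)) (G m l) E * share g l' (p ^ (d * m)) (G m l') E'| ≤ ε := by
  obtain ⟨m₀, h⟩ := hF.equidistributed l l' hl hl' h0 h0' hll hs hs' hD hD' ε hε
  exact ⟨m₀, fun m hm hne E E' => h m hm hne E E'⟩

lemma equi_single (hF : F.HasMonodromy Φ d g l₀ D G) {l l' : ℕ} (hl : l.Prime)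
    (hl' : l'.Prime) (h0 : l₀ ≤ l) (h0' : l₀ ≤ l') (hll : l ≠ l') (hs : SplitsCompletely K l)
    (hs' : SplitsCompletely K l') (hD : SplitsMod D l) (hD' : SplitsMod D l') {ε : ℝ}
    (hε : 0 < ε) :
    ∃ m₀ : ℕ, ∀ m ≥ m₀, Nonempty (F.S m) →
      ∀ (E : Set ((𝓞 K →+* ZMod l) → (ZMod l)[X])),
        |((F.rpat m l E).ncard : ℝ) / (Nat.card (F.S m) : ℝ) -
          share g l (p ^ (d * m)) (G m l) E| ≤ ε := by
  have hfin : Finite (𝓞 K →+* ZMod l) := Nat.finite_of_card_ne_zero (by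
    rw [show Nat.card (𝓞 K →+* ZMod l) = Module.finrank ℚ K from hs]
    exact Module.finrank_pos.ne')
  have hfin' : Finite (𝓞 K →+* ZMod l') := Nat.finite_of_card_ne_zero (by
    rw [show Nat.card (𝓞 K →+* ZMod l') = Module.finrank ℚ K from hs']
    exact Module.finrank_pos.ne')
  obtain ⟨m₀, h⟩ := equi_pair hF hl hl' h0 h0' hll hs hs' hD hD' (ε := ε / 2) (by positivity)
  refine ⟨m₀, fun m hm hne E => ?_⟩
  have h3 := h m hm hne E Set.univ
  have h4 := h m hm hne Set.univ Set.univ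
  have e1 : F.rpat m l E ∩ F.rpat m l' Set.univ = F.rpat m l E := by
    ext s
    simp [RFamily.rpat]
  have e2 : F.rpat m l Set.univ ∩ F.rpat m l' Set.univ = Set.univ := by
    ext s
    simp [RFamily.rpat]
  rw [e1] at h3
  rw [e2, Set.ncard_univ, div_self (by exact_mod_cast Nat.card_pos.ne')] at h4
  have h5 : share g l (p ^ (d * m)) (G m l) E ≤ 1 := share_le_one hl
  have h6 : 0 ≤ share g l (p ^ (d * m)) (G m l) E := share_nonneg
  have h7 : share g l (p ^ (d * m)) (G m l) Set.univ ≤ 1 := share_le_one hl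
  have h8 : 0 ≤ share g l' (p ^ (d * m)) (G m l') Set.univ := share_nonneg
  rw [abs_le] at h3 h4 ⊢
  have h10 : 1 - share g l' (p ^ (d * m)) (G m l') Set.univ ≤ ε / 2 := by
    have : share g l (p ^ (d * m)) (G m l) Set.univ *
        share g l' (p ^ (d * m)) (G m l') Set.univ ≤
        1 * share g l' (p ^ (d * m)) (G m l') Set.univ :=
      mul_le_mul_of_nonneg_right h7 h8
    linarith [h4.2]
  have h9 : share g l' (p ^ (d * m)) (G m l') Set.univ ≤ 1 := share_le_one hl'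
  have h11 : share g l (p ^ (d * m)) (G m l) E *
      (1 - share g l' (p ^ (d * m)) (G m l') Set.univ) ≤ 1 * (ε / 2) :=
    mul_le_mul h5 h10 (by linarith) (by norm_num)
  have h12 : 0 ≤ share g l (p ^ (d * m)) (G m l) E *
      (1 - share g l' (p ^ (d * m)) (G m l') Set.univ) := mul_nonneg h6 (by linarith)
  constructor
  · linarith [h3.1]
  · linarith [h3.2]

end One

/-- The patterns. -/
def revs {I : Type} [DecidableEq I] (K : I → Type) [∀ i, Field (K i)] [∀ i, NumberField (K i)]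
    (o : I → Prop) (g : I → ℕ) (q : I → ℕ) (N : ℕ) (κ : I × Fin 3) (i : I) (l : ℕ) :
    Set ((𝓞 (K i) →+* ZMod l) → (ZMod l)[X]) :=
  match κ.2 with
  | 0 => if i = κ.1 then
      {u | (¬ o i → ∏ᶠ χ, u χ ∈ flipSet (Module.finrank ℚ (K i) * g i) N l (q i)) ∧
        (o i → ∏ᶠ χ, u χ ∈ flip2Set (Module.finrank ℚ (K i) * g i) N l (q i))}
    else {u | ∏ᶠ χ, u χ ∈ splitSet (Module.finrank ℚ (K i) * g i) l (q i)}
  | 1 => if i = κ.1 then {u | ∃ χ, Irreducible (u χ)} else Set.univ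
  | 2 => if i = κ.1 then {u | o i → ∃ (t : ZMod l) (v : (ZMod l)[X]),
      ∏ᶠ χ, u χ = (X - C t) * v ∧ ∀ s, v.eval s ≠ 0} else Set.univ

/-- **Almost all tuples of members of families with full monodromy over number fields satisfy the
hypotheses of the geometric theorem.** -/
theorem real_setup (hS : St_SIEVE) (hSPL : St_SPL)
    (hUNI : St_UNI) (σ : W.K →+* ℂ) (hp : p.Prime)
    (hint : ∀ μ : W.K, Module.End.HasEigenvalue (W.map (Φ.Fr Y)).toLinearMap μ → IsIntegral ℤ μ)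
    {I : Type} [Fintype I] (K : I → Type) [∀ i, Field (K i)] [∀ i, NumberField (K i)]
    (F : ∀ i, RFamily W Y (K i)) (hF : ∀ i, (F i).HasFullMonodromy Φ) (ε : ℝ) (hε : 0 < ε) :
    ∃ (R : ℤ[X]) (m₀ : ℕ), ∀ m ≥ m₀, ({s : ∀ i, (F i).S m |
        ¬ Setup Φ σ (fun i => (F i).member m (s i)) m R}.ncard : ℝ) ≤
      ε * ∏ i, (Nat.card ((F i).S m) : ℝ) := by
  classical
  obtain ⟨R, hRm, hRs, hR, hRz⟩ := exists_R'
    (Module.End.finite_hasEigenvalue (W.map (Φ.Fr Y)).toLinearMap) hint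
  choose d g l₀ D G hM using hF
  by_cases hg : ∃ i, g i = 0
  · obtain ⟨i, hi⟩ := hg
    refine ⟨R, 1, fun m hm => ?_⟩
    have h1 : IsEmpty ((F i).S m) := by
      refine ⟨fun s => ?_⟩
      have h2 := degree_pol (hM i) m (by omega) s
      have h3 := ((hM i).isOver m (by omega) s).degree_pos
      rw [h2, hi, mul_zero] at h3
      exact lt_irrefl _ h3
    have h2 : IsEmpty (∀ i, (F i).S m) := ⟨fun s => h1.false (s i)⟩
    rw [Set.eq_empty_of_isEmpty {s : ∀ i, (F i).S m | ¬ Setup Φ σ (fun i => (F i).member m (s i))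
      m R}, Set.ncard_empty, Nat.cast_zero]
    positivity
  push Not at hg
  have hg0 : ∀ i, 0 < g i := fun i => Nat.pos_of_ne_zero (hg i)
  set dg : ℕ := ∑ i, Module.finrank ℚ (K i) * g i with hdg
  obtain ⟨N, hN, hNz⟩ := hUNI (2 * dg)
  refine ⟨R, ?_⟩
  choose θ Nθ hθ using fun i => exists_gen (K i)
  choose o c l₁ hc ho3 hdat using fun i =>
    exists_dat (g i) N p (d i) (hg0 i) hN hp (G i) (hM i).group
  -- the constants
  set e : I → ℕ := fun i => Module.finrank ℚ (K i) with he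
  set c' : I → ℝ := fun i => (c i / 2 / 2 ^ g i) ^ e i with hc'
  have hc'0 : ∀ i, 0 < c' i := fun i => pow_pos (div_pos (half_pos (hc i)) (by positivity)) _
  obtain ⟨c₀, hc₀, hc₀c, hc₀1⟩ : ∃ c₀ : ℝ, 0 < c₀ ∧ (∀ i, c₀ ≤ c' i) ∧ c₀ ≤ 1 := by
    rcases isEmpty_or_nonempty I with hI | hI
    · exact ⟨1, one_pos, fun i => hI.elim i, le_refl 1⟩
    · obtain ⟨i, hi⟩ := Finite.exists_min c'
      exact ⟨min (c' i) 1, lt_min (hc'0 i) one_pos, fun j => (min_le_left _ _).trans (hi j),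
        min_le_right _ _⟩
  have hl₂ : ∀ i, ∃ l₂ : ℕ, ∀ l : ℕ, l₂ ≤ l → 2 * ((e i * g i : ℕ) : ℝ) ≤ c i * l := by
    intro i
    obtain ⟨l₂, h⟩ := exists_nat_ge (2 * ((e i * g i : ℕ) : ℝ) / c i)
    refine ⟨l₂, fun l hl => ?_⟩
    have h1 : 2 * ((e i * g i : ℕ) : ℝ) / c i ≤ l := h.trans (by exact_mod_cast hl)
    rw [div_le_iff₀ (hc i)] at h1
    linarith
  choose l₂ hl₂ using hl₂
  set L : ℕ := p + 3 + ∑ i, (l₀ i + l₁ i + l₂ i + Nθ i) with hL
  have hLi : ∀ i, l₀ i + l₁ i + l₂ i + Nθ i ≤ L := fun i => by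
    have := Finset.single_le_sum (f := fun i => l₀ i + l₁ i + l₂ i + Nθ i)
      (fun j _ => Nat.zero_le _) (Finset.mem_univ i)
    omega
  -- the primes
  obtain ⟨A, hA, hAs, hAd⟩ := exists_common (I := Option I ⊕ I)
    (fun x => match x with
      | Sum.inl none => R
      | Sum.inl (some i) => minpoly ℤ (θ i)
      | Sum.inr i => D i)
    (fun x => match x with
      | Sum.inl none => hRm
      | Sum.inl (some i) => minpoly.monic (Algebra.IsIntegral.isIntegral (θ i))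
      | Sum.inr i => (hM i).monic')
    (fun x => match x with
      | Sum.inl none => hRs
      | Sum.inl (some i) => minpoly_separable (θ i)
      | Sum.inr i => (hM i).separable)
  have hAR : R ∣ A := hAd (Sum.inl none)
  have hAθ : ∀ i, minpoly ℤ (θ i) ∣ A := fun i => hAd (Sum.inl (some i))
  have hAD : ∀ i, D i ∣ A := fun i => hAd (Sum.inr i)
  set G' : Set ℕ := {l : ℕ | l.Prime ∧ SplitsMod A l} \ {l | l ≤ L} with hG'
  have hinf : G'.Infinite := (hSPL A hA hAs).sdiff (Set.finite_le_nat L)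
  have hGp : ∀ l ∈ G', l.Prime ∧ SplitsMod A l ∧ L < l := fun l hl =>
    ⟨hl.1.1, hl.1.2, not_le.1 hl.2⟩
  have hGR : ∀ l ∈ G', SplitsMod R l := fun l hl =>
    splitsMod_of_dvd hRm hAR (hGp l hl).1 (hGp l hl).2.1
  have hGθ : ∀ i, ∀ l ∈ G', SplitsMod (minpoly ℤ (θ i)) l := fun i l hl =>
    splitsMod_of_dvd (minpoly.monic (Algebra.IsIntegral.isIntegral (θ i))) (hAθ i) (hGp l hl).1
      (hGp l hl).2.1
  have hGD : ∀ i, ∀ l ∈ G', SplitsMod (D i) l := fun i l hl =>
    splitsMod_of_dvd (hM i).monic' (hAD i) (hGp l hl).1 (hGp l hl).2.1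
  have hGN : ∀ i, ∀ l ∈ G', ¬ l ∣ Nθ i := by
    intro i l hl h
    have h1 := (hGp l hl).2.2
    have h2 := hLi i
    have h3 := Nat.le_of_dvd (hθ i).pos h
    omega
  have hGs : ∀ i, ∀ l ∈ G', SplitsCompletely (K i) l := fun i l hl =>
    splitsCompletely_of (hθ i) l (hGp l hl).1 (hGθ i l hl) (hGN i l hl)
  have hGl : ∀ i, ∀ l ∈ G', l₀ i ≤ l := by
    intro i l hl
    have h1 := (hGp l hl).2.2
    have h2 := hLi i
    omega
  have hGlp : ∀ l ∈ G', ¬ l ∣ p := by
    intro l hl h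
    have h1 := (hGp l hl).2.2
    have h3 := Nat.le_of_dvd hp.pos h
    omega
  have hGne : ∀ l, ∃ l' ∈ G', l ≠ l' := by
    intro l
    obtain ⟨l', hl', hne⟩ := hinf.exists_gt l
    exact ⟨l', hl', by omega⟩
  have hfin : ∀ i, ∀ l ∈ G', Finite (𝓞 (K i) →+* ZMod l) := fun i l hl =>
    Nat.finite_of_card_ne_zero (by
      rw [show Nat.card (𝓞 (K i) →+* ZMod l) = Module.finrank ℚ (K i) from hGs i l hl]
      exact Module.finrank_pos.ne')
  have hdens : ∀ i, ∀ l ∈ G', ∀ m : ℕ, ∀ κ : I × Fin 3,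
      c₀ ≤ share (g i) l (p ^ (d i * m)) (G i m l)
        (revs K o g (fun i => p ^ (d i * m)) N κ i l) := by
    rintro i l hl m ⟨i₀, ev⟩
    have h4 := hLi i
    have h3 := (hGp l hl).2.2
    have hprime := (hGp l hl).1
    have hf := hfin i l hl
    let _ : Fintype (𝓞 (K i) →+* ZMod l) := Fintype.ofFinite _
    have hcard : Fintype.card (𝓞 (K i) →+* ZMod l) = e i := by
      rw [← Nat.card_eq_fintype_card]
      exact hGs i l hl
    obtain ⟨χ₀⟩ : Nonempty (𝓞 (K i) →+* ZMod l) := by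
      rw [← Fintype.card_pos_iff, hcard]
      exact Module.finrank_pos
    have hdat' : ∀ χ, Dat (o i) (g i) N l (p ^ (d i * m)) (G i m l χ) (c i) := fun χ =>
      hdat i l hprime (by omega) (hGlp l hl) m χ
    have hll : 2 * ((Fintype.card (𝓞 (K i) →+* ZMod l) * g i : ℕ) : ℝ) ≤ c i * l := by
      rw [hcard]
      exact hl₂ i l (by omega)
    have hc₀' : c₀ ≤ (c i / 2 / 2 ^ g i) ^ Fintype.card (𝓞 (K i) →+* ZMod l) := by
      rw [hcard]
      exact hc₀c i
    have h1 := dens_split (hg0 i) hprime (hc i) hdat' hll χ₀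
    have h2 := fun ho => dens_flip (hg0 i) hprime (hc i) hdat' hll χ₀ ho
    have h2' := fun ho => dens_flip2 (hg0 i) hprime (hc i) hdat' hll χ₀ ho
    have h5 := dens_irr (hg0 i) hprime (hc i) hdat' hll χ₀
    have h6 := fun ho => dens_fix (hg0 i) hprime (hc i) hdat' hll χ₀ ho (ho3 i ho)
    have huniv : c₀ ≤ share (g i) l (p ^ (d i * m)) (G i m l) Set.univ :=
      (hc₀'.trans h5).trans (share_mono hprime (Set.subset_univ _))
    unfold revs
    simp only [finprod_eq_prod_of_fintype]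
    rw [hcard] at h1 h2 h2'
    fin_cases ev
    · dsimp only
      split_ifs
      · by_cases ho : o i
        · refine (hc₀'.trans (by rw [hcard]; exact h2' ho)).trans (share_mono hprime ?_)
          intro u hu
          exact ⟨fun h => absurd ho h, fun _ => hu⟩
        · refine (hc₀'.trans (by rw [hcard]; exact h2 ho)).trans (share_mono hprime ?_)
          intro u hu
          exact ⟨fun _ => hu, fun h => absurd h ho⟩
      · exact hc₀'.trans (by rw [hcard]; exact h1)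
    · dsimp only
      split_ifs
      · exact (hc₀'.trans h5).trans (share_mono hprime fun u hu => ⟨χ₀, hu⟩)
      · exact huniv
    · dsimp only
      split_ifs
      · by_cases ho : o i
        · exact (hc₀'.trans (h6 ho)).trans (share_mono hprime fun u hu _ => hu)
        · exact huniv.trans (share_mono hprime fun u _ h => absurd h ho)
      · exact huniv
  obtain ⟨m₀, h⟩ := almost_all_abs hS (I := I) (K := I × Fin 3) (fun i m => (F i).S m) G' hinf
    (fun κ i m l => (F i).rpat m l (revs K o g (fun i => p ^ (d i * m)) N κ i l))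
    (fun κ i m l => share (g i) l (p ^ (d i * m)) (G i m l)
      (revs K o g (fun i => p ^ (d i * m)) N κ i l))
    (by
      intro κ i l hl ε hε
      obtain ⟨l', hl', hne⟩ := hGne l
      obtain ⟨m₀, h⟩ := equi_single (hM i) (hGp l hl).1 (hGp l' hl').1 (hGl i l hl)
        (hGl i l' hl') hne (hGs i l hl) (hGs i l' hl') (hGD i l hl) (hGD i l' hl') hε
      exact ⟨m₀, fun m hm hne => h m hm hne _⟩)
    (by
      intro κ i l hl l' hl' hne ε hε
      obtain ⟨m₀, h⟩ := equi_pair (hM i) (hGp l hl).1 (hGp l' hl').1 (hGl i l hl)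
        (hGl i l' hl') hne (hGs i l hl) (hGs i l' hl') (hGD i l hl) (hGD i l' hl') hε
      exact ⟨m₀, fun m hm hne => h m hm hne _ _⟩) hc₀
    (fun κ i l hl m _ => ⟨hdens i l hl m κ, by
      have := hfin i l hl
      exact share_le_one (hGp l hl).1⟩) ε hε
  refine ⟨m₀ + 1, fun m hm => le_trans ?_ (h m (by omega))⟩
  have hm0 : 0 < m := by omega
  refine Nat.cast_le.2 (Set.ncard_le_ncard ?_ (Set.toFinite _))
  intro s hs hpat
  apply hs
  have hO : ∀ i, ((F i).member m (s i)).IsOver Φ m := fun i => (hM i).isOver m hm0 (s i)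
  have hdim : ∀ i, ((F i).member m (s i)).obj.dim = d i := fun i => (hM i).dim m (s i)
  have hdeg : ∀ i, ((F i).member m (s i)).pol.natDegree = Module.finrank ℚ (K i) * g i :=
    fun i => degree_pol (hM i) m hm0 (s i)
  have hred : ∀ i, ∀ l ∈ G', ((F i).member m (s i)).pol.map (Int.castRingHom (ZMod l)) =
      ∏ᶠ χ : 𝓞 (K i) →+* ZMod l, ((F i).rpol m (s i)).map χ := by
    intro i l hl
    have hf := hfin i l hl
    let _ : Fintype (𝓞 (K i) →+* ZMod l) := Fintype.ofFinite _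
    rw [finprod_eq_prod_of_fintype]
    exact norm_red (hθ i) l (hGp l hl).1 (hGθ i l hl) (hGN i l hl) _ _ ((hM i).norm m (s i))
  have hflip0 : ∀ i₀, ∃ l ∈ G', ((¬ o i₀ → ((F i₀).member m (s i₀)).pol.map
      (Int.castRingHom (ZMod l)) ∈ flipSet ((F i₀).member m (s i₀)).pol.natDegree N l
        (p ^ (d i₀ * m))) ∧ (o i₀ → ((F i₀).member m (s i₀)).pol.map
      (Int.castRingHom (ZMod l)) ∈ flip2Set ((F i₀).member m (s i₀)).pol.natDegree N l
        (p ^ (d i₀ * m)))) ∧ ∀ i, i ≠ i₀ → ((F i).member m (s i)).pol.map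
      (Int.castRingHom (ZMod l)) ∈ splitSet ((F i).member m (s i)).pol.natDegree l
        (p ^ (d i * m)) := by
    intro i₀
    obtain ⟨l, hl, h1⟩ := hpat (i₀, 0)
    refine ⟨l, hl, ?_, fun i hi => ?_⟩
    · have h2 := h1 i₀
      unfold revs RFamily.rpat at h2
      dsimp only at h2
      rw [if_pos rfl] at h2
      rw [hdeg, hred i₀ l hl]
      exact h2
    · have h2 := h1 i
      unfold revs RFamily.rpat at h2
      dsimp only at h2
      rw [if_neg hi] at h2
      rw [hdeg, hred i l hl]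
      exact h2
  have hl2 : ∀ l ∈ G', l ≠ 2 := by
    intro l hl h
    have h3 := (hGp l hl).2.2
    omega
  have hlq : ∀ l ∈ G', ∀ i, ¬ l ∣ p ^ (d i * m) := fun l hl i h =>
    hGlp l hl ((hGp l hl).1.dvd_of_dvd_pow h)
  -- irreducibility
  have hirr : ∀ i, Irreducible (((F i).member m (s i)).pol.map (Int.castRingHom ℚ)) := by
    intro i
    obtain ⟨l, hl, h1, -⟩ := hflip0 i
    obtain ⟨l', hl', h2⟩ := hpat (i, 1)
    have h3 := h2 i
    unfold revs RFamily.rpat at h3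
    dsimp only at h3
    rw [if_pos rfl] at h3
    obtain ⟨χ, hχ⟩ := h3
    have : Fact l.Prime := ⟨(hGp l hl).1⟩
    have hsq : Squarefree (((F i).member m (s i)).pol.map (Int.castRingHom (ZMod l))) := by
      by_cases ho : o i
      · obtain ⟨T, t₀, t₁, hT, _, _, _, h4, _⟩ := h1.2 ho
        rw [h4]
        exact (W806.MF.prod_good T hT).2.2
      · obtain ⟨T, t₀, hT, _, h4, _⟩ := h1.1 ho
        rw [h4]
        exact (W806.MF.prod_good T hT).2.2
    exact irreducible_of_norm _ (hO i).monic _ ((hM i).monic m (s i)) ((hM i).norm m (s i))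
      (separable_of_squarefree_map _ (hO i).monic l (hGp l hl).1 hsq) (hGp l' hl').1 χ hχ
  have hQ : ∀ i, ((F i).member m (s i)).Q p m = p ^ (d i * m) := by
    intro i
    rw [Piece.Q, hdim i]
  have hnt := nt3 o (fun i => p ^ (d i * m)) (fun i => ((F i).member m (s i)).pol) R N
    (fun i => pow_pos hp.pos _) (fun i => (hO i).monic) hRm (by
      rintro i z ht ⟨Q, hQ0, hQd, hQz⟩
      refine hNz z ht ⟨Q, hQ0, hQd.trans ?_, hQz⟩
      rw [hdeg i]
      have h1 : Module.finrank ℚ (K i) * g i ≤ dg :=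
        Finset.single_le_sum (f := fun i => Module.finrank ℚ (K i) * g i)
          (fun j _ => Nat.zero_le _) (Finset.mem_univ i)
      exact Nat.mul_le_mul_left 2 h1) hirr
    (by
      intro i₀ ho
      obtain ⟨l, hl, h1, h2⟩ := hflip0 i₀
      exact ⟨l, (hGp l hl).1, hl2 l hl, hlq l hl, hGR l hl, h1.1 ho, h2⟩)
    (by
      intro i₀ ho
      refine ⟨?_, ?_⟩
      · obtain ⟨l, hl, h1⟩ := hpat (i₀, 2)
        have h2 := h1 i₀
        unfold revs RFamily.rpat at h2
        dsimp only at h2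
        rw [if_pos rfl] at h2
        obtain ⟨t, v, h3, h4⟩ := h2 ho
        exact ⟨l, (hGp l hl).1, t, v, by rw [hred i₀ l hl]; exact h3, h4⟩
      · obtain ⟨l, hl, h1, h2⟩ := hflip0 i₀
        exact ⟨l, (hGp l hl).1, hl2 l hl, hlq l hl, hGR l hl, h1.2 ho, h2⟩)
  refine ⟨hp.one_lt, hm0, hO, fun μ hμ => hR μ hμ, ?_, ?_⟩
  · have e : (fun i => ((F i).member m (s i)).Q p m) = fun i => p ^ (d i * m) := funext hQ
    rw [e]
    exact hnt.1
  · intro i
    rw [hQ i]
    exact hnt.2 i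

/-- **The Tate conjecture and semisimplicity for the products of almost all members of families
with multiplication by number fields and full symplectic or orthogonal monodromy.** -/
theorem real_tate (W : WeilCohomology.{u, v} ops)
    [IsAlgClosed W.K] (σ : W.K →+* ℂ) (p : ℕ)
    (hp : p.Prime) (Φ : FrobSystem W p) (Y : 𝒱.Obj)
    (hint : ∀ μ : W.K, Module.End.HasEigenvalue (W.map (Φ.Fr Y)).toLinearMap μ → IsIntegral ℤ μ)
    (hY : ∀ Z, IsProductOf {Y} Z → ∀ j ≤ Z.dim, SemisimpleTateIn Φ Z j)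
    {I : Type} [Fintype I] (K : I → Type) [∀ i, Field (K i)] [∀ i, NumberField (K i)]
    (F : ∀ i, RFamily W Y (K i)) (hF : ∀ i, (F i).HasFullMonodromy Φ) (ε : ℝ) (hε : 0 < ε) :
    ∃ m₀ : ℕ, ∀ m ≥ m₀, ((exceptions (fun i => (F i).toFamily) m
        fun Z => ∀ j, SemisimpleTateIn Φ Z j).ncard : ℝ) ≤
      ε * ∏ i, (Nat.card ((F i).S m) : ℝ) := by
  classical
  obtain ⟨R, m₀, h⟩ := real_setup W216.MF.sieve W976.MF.SPL W216.MF.uni σ hp hint K F hF ε hε
  refine ⟨m₀, fun m hm => le_trans ?_ (h m hm)⟩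
  refine Nat.cast_le.2 (Set.ncard_le_ncard ?_ (Set.toFinite _))
  intro s hs H
  exact hs fun Z hZ => tate_products W397.MF.pair W40.MF.span H hY Z hZ

end Family

end Pool.Agent.V8H88.RM
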