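import Pool.Agent.V8H88.RM.Defs
import Pool.Agent.W458.MF.OStm
import Pool.Agent.W366.MF.WInj
import Pool.Agent.W101.MF.WM

/-!
# Lower bounds for proportions
-/

set_option autoImplicit false
set_option linter.unusedSectionVars false

open Polynomial

namespace Pool.Agent.V8H88.RM

open Pool.Agent.W521.Frob Pool.Agent.W458.MF

lemma ncard_pi' {T α : Type} [Fintype T] (s : T → Set α) :
    {f : T → α | ∀ x, f x ∈ s x}.ncard = ∏ x, (s x).ncard := by
  have h1 : {f : T → α | ∀ x, f x ∈ s x} = Set.univ.pi s := by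
    ext f
    simp
  rw [h1, ← Nat.card_coe_set_eq, Nat.card_congr (Equiv.Set.univPi s), Nat.card_pi]
  rfl

/-- The polynomials `f` for which there are many matrices in `G` with the characteristic polynomial
`weilm q f`. -/
def Good (g l q : ℕ) (G : Set (Mat g l)) : Set (ZMod l)[X] :=
  {f | f.Monic ∧ f.natDegree = g ∧
    G.ncard ≤ (2 * l) ^ g * {A | A ∈ G ∧ A.charpoly = weilm (q : ZMod l) f}.ncard}

theorem share_ge {T : Type} [Fintype T] {g l q : ℕ} (hl : l.Prime) {G : T → Set (Mat g l)}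
    (hG : ∀ x, (G x).Nonempty) {S E : Set (T → (ZMod l)[X])} (hSE : S ⊆ E)
    (hS : ∀ u ∈ S, ∀ x, u x ∈ Good g l q (G x)) {c : ℝ} (hc : 0 < c)
    (hcard : (c * (l : ℝ) ^ g) ^ Fintype.card T ≤ (S.ncard : ℝ)) :
    (c / 2 ^ g) ^ Fintype.card T ≤ share g l q G E := by
  classical
  have : Fact l.Prime := ⟨hl⟩
  have : NeZero l := ⟨hl.ne_zero⟩
  obtain ⟨-, -, -, hWM4, hWM5⟩ := W101.MF.wm l hl (q : ZMod l)
  have hlp : (0 : ℝ) < l := by exact_mod_cast hl.pos
  have hSfin : S.Finite := by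
    apply Set.finite_of_ncard_pos
    have : (0 : ℝ) < (S.ncard : ℝ) := lt_of_lt_of_le (by positivity) hcard
    exact_mod_cast this
  have hlift : ∀ f : (ZMod l)[X], ∃ h : ℤ[X], f.Monic →
      h.map (Int.castRingHom (ZMod l)) = f ∧ h.natDegree = f.natDegree ∧ h.Monic := by
    intro f
    by_cases hf : f.Monic
    · obtain ⟨h, ha, hb, hc⟩ := hWM5 f hf
      exact ⟨h, fun _ => ⟨hc, hb, ha⟩⟩
    · exact ⟨0, fun h => absurd h hf⟩
  choose H hH using hlift
  have hfin : ∀ s : Set (T → Mat g l), s.Finite := fun s => Set.toFinite s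
  set P : Set (T → Mat g l) := {A : T → Mat g l | (∀ x, A x ∈ G x) ∧ ∃ h : T → ℤ[X],
      (∀ x, (h x).Monic ∧
      (h x).natDegree = g ∧ (A x).charpoly = (weil q (h x)).map (Int.castRingHom (ZMod l))) ∧
      (fun x => (h x).map (Int.castRingHom (ZMod l))) ∈ E} with hP
  set Af : (T → (ZMod l)[X]) → Set (T → Mat g l) := fun u =>
    {A | ∀ x, A x ∈ {B | B ∈ G x ∧ B.charpoly = weilm (q : ZMod l) (u x)}} with hAf
  have hAfcard : ∀ u, (Af u).ncard =
      ∏ x, {B | B ∈ G x ∧ B.charpoly = weilm (q : ZMod l) (u x)}.ncard := fun u =>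
    ncard_pi' fun x => {B | B ∈ G x ∧ B.charpoly = weilm (q : ZMod l) (u x)}
  have hGcard : {A : T → Mat g l | ∀ x, A x ∈ G x}.ncard = ∏ x, (G x).ncard := ncard_pi' G
  have hA1 : ∀ u ∈ S, ∏ x, (G x).ncard ≤ ((2 * l) ^ g) ^ Fintype.card T * (Af u).ncard := by
    intro u hu
    rw [hAfcard, ← Finset.card_univ, ← Finset.prod_const, ← Finset.prod_mul_distrib]
    exact Finset.prod_le_prod' fun x _ => (hS u hu x).2.2
  have hA2 : ∑ u ∈ hSfin.toFinset, (Af u).ncard ≤ P.ncard := by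
    have e : ∀ f, (Af f).ncard = (hfin (Af f)).toFinset.card := fun f =>
      Set.ncard_eq_toFinset_card _ _
    rw [Set.ncard_eq_toFinset_card P (hfin P), Finset.sum_congr rfl (fun f _ => e f),
      ← Finset.card_biUnion]
    · refine Finset.card_le_card ?_
      intro A hA
      rw [Finset.mem_biUnion] at hA
      obtain ⟨u, hu, hA⟩ := hA
      rw [Set.Finite.mem_toFinset] at hu hA ⊢
      refine ⟨fun x => (hA x).1, fun x => H (u x), fun x => ?_, ?_⟩
      · obtain ⟨h1, h2, h3⟩ := hH (u x) (hS u hu x).1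
        refine ⟨h3, h2.trans (hS u hu x).2.1, ?_⟩
        rw [hWM4 q _ h3, h1]
        exact (hA x).2
      · have h4 : (fun x => (H (u x)).map (Int.castRingHom (ZMod l))) = u :=
          funext fun x => (hH (u x) (hS u hu x).1).1
        rw [h4]
        exact hSE hu
    · intro u hu u' hu' hne
      simp only [Function.onFun, Finset.disjoint_left, Set.Finite.mem_toFinset]
      intro A hA hA'
      rw [Finset.mem_coe, hSfin.mem_toFinset] at hu hu'
      apply hne
      funext x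
      obtain ⟨h1, h2, h3⟩ := hH (u x) (hS u hu x).1
      obtain ⟨h1', h2', h3'⟩ := hH (u' x) (hS u' hu' x).1
      have h4 := W366.MF.winj l q (H (u x)) (H (u' x)) h3 h3'
        (by rw [h2, h2', (hS u hu x).2.1, (hS u' hu' x).2.1]) (by
          rw [hWM4 q _ h3, hWM4 q _ h3', h1, h1', ← (hA x).2, ← (hA' x).2])
      rwa [h1, h1'] at h4
  have hA3 : S.ncard * ∏ x, (G x).ncard ≤ ((2 * l) ^ g) ^ Fintype.card T * P.ncard := by
    calc S.ncard * ∏ x, (G x).ncard = ∑ _f ∈ hSfin.toFinset, ∏ x, (G x).ncard := by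
          rw [Finset.sum_const, smul_eq_mul, ← Set.ncard_eq_toFinset_card S hSfin]
      _ ≤ ∑ f ∈ hSfin.toFinset, ((2 * l) ^ g) ^ Fintype.card T * (Af f).ncard :=
          Finset.sum_le_sum fun f hf => hA1 f (hSfin.mem_toFinset.1 hf)
      _ = ((2 * l) ^ g) ^ Fintype.card T * ∑ f ∈ hSfin.toFinset, (Af f).ncard := by
          rw [Finset.mul_sum]
      _ ≤ ((2 * l) ^ g) ^ Fintype.card T * P.ncard := Nat.mul_le_mul_left _ hA2
  have hSp : 0 < ∏ x, (G x).ncard :=
    Finset.prod_pos fun x _ => (Set.ncard_pos (Set.toFinite _)).2 (hG x)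
  have hSpR : (0 : ℝ) < ((∏ x, (G x).ncard : ℕ) : ℝ) := by exact_mod_cast hSp
  have hA4 : (S.ncard : ℝ) * ((∏ x, (G x).ncard : ℕ) : ℝ) ≤
      ((2 * (l : ℝ)) ^ g) ^ Fintype.card T * (P.ncard : ℝ) := by
    exact_mod_cast hA3
  unfold share
  rw [hGcard]
  change (c / 2 ^ g) ^ Fintype.card T ≤ (P.ncard : ℝ) / ((∏ x, (G x).ncard : ℕ) : ℝ)
  rw [div_pow, div_le_div_iff₀ (by positivity) hSpR]
  have h5 : (c * (l : ℝ) ^ g) ^ Fintype.card T * ((∏ x, (G x).ncard : ℕ) : ℝ) ≤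
      ((2 * (l : ℝ)) ^ g) ^ Fintype.card T * (P.ncard : ℝ) :=
    le_trans (mul_le_mul_of_nonneg_right hcard hSpR.le) hA4
  rw [mul_pow, mul_pow 2 (l : ℝ), mul_pow] at h5
  have h6 : ((l : ℝ) ^ g) ^ Fintype.card T *
      (c ^ Fintype.card T * ((∏ x, (G x).ncard : ℕ) : ℝ)) ≤
      ((l : ℝ) ^ g) ^ Fintype.card T * ((P.ncard : ℝ) * (2 ^ g) ^ Fintype.card T) := by
    linarith
  exact le_of_mul_le_mul_left h6 (by positivity)

lemma share_nonneg {T : Type} {g l q : ℕ} {G : T → Set (Mat g l)} {E : Set (T → (ZMod l)[X])} :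
    0 ≤ share g l q G E := by
  unfold share
  positivity

lemma share_le_one {T : Type} [Finite T] {g l q : ℕ} (hl : l.Prime) {G : T → Set (Mat g l)}
    {E : Set (T → (ZMod l)[X])} : share g l q G E ≤ 1 := by
  have : NeZero l := ⟨hl.ne_zero⟩
  unfold share
  refine div_le_one_of_le₀ ?_ (Nat.cast_nonneg _)
  have h1 : {A : T → Mat g l | (∀ x, A x ∈ G x) ∧ ∃ h : T → ℤ[X], (∀ x, (h x).Monic ∧
      (h x).natDegree = g ∧ (A x).charpoly = (weil q (h x)).map (Int.castRingHom (ZMod l))) ∧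
      (fun x => (h x).map (Int.castRingHom (ZMod l))) ∈ E} ⊆
      {A : T → Mat g l | ∀ x, A x ∈ G x} := by
    rintro A ⟨h1, -⟩
    exact h1
  exact_mod_cast Set.ncard_le_ncard h1 (Set.toFinite _)

lemma share_mono {T : Type} [Finite T] {g l q : ℕ} (hl : l.Prime) {G : T → Set (Mat g l)}
    {E E' : Set (T → (ZMod l)[X])} (h : E ⊆ E') : share g l q G E ≤ share g l q G E' := by
  have : NeZero l := ⟨hl.ne_zero⟩
  unfold share
  refine div_le_div_of_nonneg_right ?_ (Nat.cast_nonneg _)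
  have h1 : {A : T → Mat g l | (∀ x, A x ∈ G x) ∧ ∃ h : T → ℤ[X], (∀ x, (h x).Monic ∧
      (h x).natDegree = g ∧ (A x).charpoly = (weil q (h x)).map (Int.castRingHom (ZMod l))) ∧
      (fun x => (h x).map (Int.castRingHom (ZMod l))) ∈ E} ⊆
      {A : T → Mat g l | (∀ x, A x ∈ G x) ∧ ∃ h : T → ℤ[X], (∀ x, (h x).Monic ∧
      (h x).natDegree = g ∧ (A x).charpoly = (weil q (h x)).map (Int.castRingHom (ZMod l))) ∧
      (fun x => (h x).map (Int.castRingHom (ZMod l))) ∈ E'} := by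
    rintro A ⟨h1, H, h2, h3⟩
    exact ⟨h1, H, h2, h h3⟩
  exact_mod_cast Set.ncard_le_ncard h1 (Set.toFinite _)

end Pool.Agent.V8H88.RM
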